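import Pool.Agent.Helper41.RS.Fin

/-!
# MP_418077_nt, close pairs of roots inside the unit disc: away from the double zeros
-/

set_option autoImplicit false

namespace Pool.Agent.Helper41.DZ

open Polynomial Filter Topology
open Pool.Agent.Helper41.RS

/-- The sum of the power series with the coefficients `c`. -/
noncomputable def ser (c : ℕ → ℤ) (z : ℂ) : ℂ := ∑' i, (c i : ℂ) * z ^ i

/-- The sum of the derived power series. -/
noncomputable def der (c : ℕ → ℤ) (z : ℂ) : ℂ := ∑' i, (c i : ℂ) * (i * z ^ (i - 1))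

/-- The multiple zeros in the open unit disc of power series with constant term in `C` and
integer coefficients of absolute value at most `H`. -/
def Dbl (C : Set ℤ) (H : ℕ) : Set ℂ :=
  {z | ‖z‖ < 1 ∧ ∃ c : ℕ → ℤ, (∀ i, (c i).natAbs ≤ H) ∧ c 0 ∈ C ∧ ser c z = 0 ∧ der c z = 0}

/-- divided differences of the powers -/
noncomputable def dd (a b : ℂ) (i : ℕ) : ℂ := ∑ j ∈ Finset.range i, a ^ j * b ^ (i - 1 - j)

lemma dd_self (a : ℂ) (i : ℕ) : dd a a i = i * a ^ (i - 1) := by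
  unfold dd
  have h : ∀ j ∈ Finset.range i, a ^ j * a ^ (i - 1 - j) = a ^ (i - 1) := by
    intro j hj
    rw [Finset.mem_range] at hj
    rw [← pow_add]
    congr 1
    omega
  rw [Finset.sum_congr rfl h, Finset.sum_const, Finset.card_range, nsmul_eq_mul]

lemma dd_mul (a b : ℂ) (i : ℕ) : dd a b i * (a - b) = a ^ i - b ^ i := geom_sum₂_mul a b i

lemma norm_dd_le {a b : ℂ} {r : ℝ} (ha : ‖a‖ ≤ r) (hb : ‖b‖ ≤ r) (i : ℕ) :
    ‖dd a b i‖ ≤ i * r ^ (i - 1) := by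
  have hr : 0 ≤ r := (norm_nonneg _).trans ha
  unfold dd
  refine (norm_sum_le _ _).trans ?_
  have h : ∀ j ∈ Finset.range i, ‖a ^ j * b ^ (i - 1 - j)‖ ≤ r ^ (i - 1) := by
    intro j hj
    rw [Finset.mem_range] at hj
    rw [norm_mul, norm_pow, norm_pow]
    calc ‖a‖ ^ j * ‖b‖ ^ (i - 1 - j) ≤ r ^ j * r ^ (i - 1 - j) := by gcongr
      _ = r ^ (i - 1) := by
        rw [← pow_add]
        congr 1
        omega
  refine (Finset.sum_le_sum h).trans (le_of_eq ?_)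
  rw [Finset.sum_const, Finset.card_range, nsmul_eq_mul]

lemma norm_coeff_le {H : ℕ} {v : ℤ} (hv : v.natAbs ≤ H) : ‖(v : ℂ)‖ ≤ H := by
  rw [Complex.norm_intCast]
  have h3 : |(v : ℝ)| = ((v.natAbs : ℕ) : ℝ) := by
    rw [Nat.cast_natAbs, Int.cast_abs]
  rw [h3]
  exact_mod_cast hv

lemma summable_der {r : ℝ} (h0 : 0 ≤ r) (h1 : r < 1) :
    Summable fun i : ℕ => (i : ℝ) * r ^ (i - 1) := by
  have h2 : Summable fun i : ℕ => (i : ℝ) ^ 1 * r ^ i :=
    summable_pow_mul_geometric_of_norm_lt_one 1 (by rwa [Real.norm_of_nonneg h0])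
  have h3 : Summable fun i : ℕ => r ^ i := summable_geometric_of_lt_one h0 h1
  rw [← summable_nat_add_iff 1]
  refine (h2.add h3).congr fun i => ?_
  rw [Nat.add_sub_cancel]
  push_cast
  ring

/-- Limits of pairs of approximate zeros (also coinciding ones) are double zeros. -/
theorem limit_mem {C : Set ℤ} {H : ℕ} (U : Ultrafilter ℕ) {z₀ : ℂ} (hz : ‖z₀‖ < 1) (a b : ℕ → ℂ)
    (c : ℕ → ℕ → ℤ) (hc : ∀ k i, (c k i).natAbs ≤ H) (hc0 : ∀ k, c k 0 ∈ C)
    (ha : Tendsto a U (𝓝 z₀)) (hb : Tendsto b U (𝓝 z₀))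
    (hca : Tendsto (fun k => ser (c k) (a k)) U (𝓝 0))
    (hcb : Tendsto (fun k => ∑' i, (c k i : ℂ) * dd (a k) (b k) i) U (𝓝 0)) :
    z₀ ∈ Dbl C H := by
  obtain ⟨r, hr1, hr2⟩ := exists_between hz
  have hr0 : 0 ≤ r := (norm_nonneg _).trans hr1.le
  have har : ∀ᶠ k in (U : Filter ℕ), ‖a k‖ ≤ r :=
    (ha.norm.eventually (gt_mem_nhds hr1)).mono fun k hk => hk.le
  have hbr : ∀ᶠ k in (U : Filter ℕ), ‖b k‖ ≤ r :=
    (hb.norm.eventually (gt_mem_nhds hr1)).mono fun k hk => hk.le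
  -- the limit coefficients
  have hlim : ∀ i, ∃ v ∈ Set.Icc (-(H : ℤ)) H, ∀ᶠ k in (U : Filter ℕ), c k i = v := by
    intro i
    rw [← Ultrafilter.eventually_exists_mem_iff (Set.finite_Icc _ _)]
    refine Eventually.of_forall fun k => ⟨c k i, ?_, rfl⟩
    have := hc k i
    rw [Set.mem_Icc]
    omega
  choose d hd1 hd2 using hlim
  have hdH : ∀ i, (d i).natAbs ≤ H := by
    intro i
    have := hd1 i
    rw [Set.mem_Icc] at this
    omega
  have hcast : ∀ i, Tendsto (fun k => ((c k i : ℤ) : ℂ)) U (𝓝 (d i : ℂ)) := by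
    intro i
    refine Tendsto.congr' ?_ tendsto_const_nhds
    exact (hd2 i).mono fun k hk => by simp only [hk]
  refine ⟨hz, d, hdH, ?_, ?_, ?_⟩
  · obtain ⟨k, hk⟩ := (hd2 0).exists
    rw [← hk]
    exact hc0 k
  · have h1 : Tendsto (fun k => ser (c k) (a k)) U (𝓝 (ser d z₀)) := by
      unfold ser
      refine tendsto_tsum_of_dominated_convergence (bound := fun i => (H : ℝ) * r ^ i)
        ((summable_geometric_of_lt_one hr0 hr2).mul_left _) (fun i => (hcast i).mul (ha.pow i)) ?_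
      filter_upwards [har] with k hk i
      rw [norm_mul, norm_pow]
      have := norm_coeff_le (hc k i)
      gcongr
    exact tendsto_nhds_unique h1 hca
  · have h1 : Tendsto (fun k => ∑' i, (c k i : ℂ) * dd (a k) (b k) i) U (𝓝 (der d z₀)) := by
      unfold der
      refine tendsto_tsum_of_dominated_convergence
        (bound := fun i => (H : ℝ) * ((i : ℝ) * r ^ (i - 1)))
        ((summable_der hr0 hr2).mul_left _) (fun i => (hcast i).mul ?_) ?_
      · rw [← dd_self]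
        unfold dd
        exact tendsto_finsetSum _ fun j _ => (ha.pow j).mul (hb.pow _)
      · filter_upwards [har, hbr] with k hk1 hk2 i
        rw [norm_mul]
        have e1 := norm_coeff_le (hc k i)
        have e2 := norm_dd_le hk1 hk2 i
        gcongr
    exact tendsto_nhds_unique h1 hcb

lemma tsum_coeff (Q : ℤ[X]) (φ : ℕ → ℂ) :
    ∑' i, (Q.coeff i : ℂ) * φ i = ∑ i ∈ Finset.range (Q.natDegree + 1), (Q.coeff i : ℂ) * φ i := by
  refine tsum_eq_sum fun i hi => ?_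
  rw [Finset.mem_range, not_lt] at hi
  rw [coeff_eq_zero_of_natDegree_lt (by omega), Int.cast_zero, zero_mul]

lemma ser_coeff (Q : ℤ[X]) (z : ℂ) : ser Q.coeff z = aeval z Q := by
  unfold ser
  rw [tsum_coeff, aeval_eq_range Q Q.natDegree le_rfl]

lemma der_coeff (Q : ℤ[X]) (z : ℂ) : der Q.coeff z = aeval z (derivative Q) := by
  unfold der
  rw [tsum_coeff, aeval_deriv_eq_range Q Q.natDegree le_rfl]

lemma dd_coeff (Q : ℤ[X]) {a b : ℂ} (ha : aeval a Q = 0) (hb : aeval b Q = 0) (hab : a ≠ b) :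
    ∑' i, (Q.coeff i : ℂ) * dd a b i = 0 := by
  rw [tsum_coeff]
  have h1 : (∑ i ∈ Finset.range (Q.natDegree + 1), (Q.coeff i : ℂ) * dd a b i) * (a - b) = 0 := by
    rw [Finset.sum_mul]
    have h2 : ∀ i ∈ Finset.range (Q.natDegree + 1), (Q.coeff i : ℂ) * dd a b i * (a - b) =
        (Q.coeff i : ℂ) * a ^ i - (Q.coeff i : ℂ) * b ^ i := by
      intro i _
      rw [mul_assoc, dd_mul, mul_sub]
    rw [Finset.sum_congr rfl h2, Finset.sum_sub_distrib, ← aeval_eq_range Q _ le_rfl,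
      ← aeval_eq_range Q _ le_rfl, ha, hb, sub_zero]
  exact (mul_eq_zero.1 h1).resolve_right (sub_ne_zero.2 hab)

/-- Roots of a polynomial with non-zero constant term are not small. -/
lemma root_large {H : ℕ} {Q : ℤ[X]} (hQ : ∀ i, (Q.coeff i).natAbs ≤ H) (hQ0 : Q.coeff 0 ≠ 0)
    {b : ℂ} (hb : aeval b Q = 0) : 1 / ((H : ℝ) + 1) ≤ ‖b‖ := by
  by_contra hc
  rw [not_le] at hc
  have hH0 : (0 : ℝ) ≤ H := Nat.cast_nonneg H
  have hb1 : ‖b‖ < 1 := by
    refine lt_of_lt_of_le hc ?_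
    rw [div_le_one (by linarith)]
    linarith
  rw [aeval_eq_range Q Q.natDegree le_rfl, Finset.sum_range_succ', pow_zero, mul_one] at hb
  have h1 : (1 : ℝ) ≤ ‖((Q.coeff 0 : ℤ) : ℂ)‖ := by
    rw [Complex.norm_intCast]
    exact_mod_cast Int.one_le_abs hQ0
  have h2 : ((Q.coeff 0 : ℤ) : ℂ) =
      -∑ i ∈ Finset.range Q.natDegree, (Q.coeff (i + 1) : ℂ) * b ^ (i + 1) := by
    linear_combination hb
  rw [h2, norm_neg] at h1
  have h3 : ‖∑ i ∈ Finset.range Q.natDegree, (Q.coeff (i + 1) : ℂ) * b ^ (i + 1)‖ ≤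
      ∑ i ∈ Finset.range Q.natDegree, ((H : ℝ) * ‖b‖) * ‖b‖ ^ i := by
    refine (norm_sum_le _ _).trans (Finset.sum_le_sum fun i _ => ?_)
    rw [norm_mul, norm_pow, pow_succ]
    have := norm_coeff_le (hQ (i + 1))
    calc ‖((Q.coeff (i + 1) : ℤ) : ℂ)‖ * (‖b‖ ^ i * ‖b‖) ≤ H * (‖b‖ ^ i * ‖b‖) := by gcongr
      _ = (H : ℝ) * ‖b‖ * ‖b‖ ^ i := by ring
  rw [← Finset.mul_sum] at h3
  have h4 : ∑ i ∈ Finset.range Q.natDegree, ‖b‖ ^ i ≤ 1 / (1 - ‖b‖) := by
    rw [one_div, ← tsum_geometric_of_lt_one (norm_nonneg _) hb1]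
    exact (summable_geometric_of_lt_one (norm_nonneg _) hb1).sum_le_tsum _
      fun i _ => by positivity
  have h5 : (1 : ℝ) ≤ (H * ‖b‖) * (1 / (1 - ‖b‖)) := by
    refine (h1.trans h3).trans ?_
    gcongr
  have h6 : 0 < 1 - ‖b‖ := by linarith
  rw [mul_one_div, le_div_iff₀ h6] at h5
  rw [lt_div_iff₀ (by linarith)] at hc
  linarith

/-- Passage to a polynomial with non-zero constant term. -/
lemma exists_nonzero_const {H n : ℕ} (hn : 1 ≤ n) {P : ℤ[X]} (hP : P ∈ Sepa n H) {a b : ℂ}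
    (ha : aeval a P = 0) (hb : aeval b P = 0) (hab : a ≠ b)
    (hclose : ‖a - b‖ < 1 / ((H : ℝ) + 1)) :
    ∃ Q : ℤ[X], (∀ i, (Q.coeff i).natAbs ≤ H) ∧ Q.coeff 0 ≠ 0 ∧ aeval a Q = 0 ∧
      aeval b Q = 0 := by
  by_cases h0 : P.coeff 0 = 0
  · obtain ⟨Q, hPQ, hQ, hQ0⟩ := exists_divX hn hP h0
    have hQH : ∀ i, (Q.coeff i).natAbs ≤ H := fun i => (natAbs_coeff_le Q i).trans hQ.2.1
    have ha0 : a ≠ 0 := by
      rintro rfl
      have h1 := root_large hQH hQ0 (deriv_divX hPQ hab.symm hb).1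
      rw [zero_sub, norm_neg] at hclose
      linarith
    have hb0 : b ≠ 0 := by
      rintro rfl
      have h1 := root_large hQH hQ0 (deriv_divX hPQ hab ha).1
      rw [sub_zero] at hclose
      linarith
    exact ⟨Q, hQH, hQ0, (deriv_divX hPQ ha0 ha).1, (deriv_divX hPQ hb0 hb).1⟩
  · exact ⟨P, fun i => (natAbs_coeff_le P i).trans hP.2.1, h0, ha, hb⟩

/-- Away from the double zeros the distances are bounded from below. -/
theorem away {C : Set ℤ} {H : ℕ} {z₀ : ℂ} (hz : ‖z₀‖ < 1) (hz' : z₀ ∉ Dbl C H) :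
    ∃ δ : ℝ, 0 < δ ∧ ∀ Q : ℤ[X], (∀ i, (Q.coeff i).natAbs ≤ H) → Q.coeff 0 ∈ C → ∀ a b : ℂ,
      aeval a Q = 0 → aeval b Q = 0 → a ≠ b → ‖a - z₀‖ < δ → δ ≤ ‖a - b‖ := by
  by_contra hcon
  push Not at hcon
  have hpos : ∀ k : ℕ, (0 : ℝ) < 1 / ((k : ℝ) + 1) := fun k => by positivity
  choose Q hQ hQ0 a b ha hb hab haz hlt using fun k : ℕ => hcon _ (hpos k)
  have ht : Tendsto (fun k : ℕ => 1 / ((k : ℝ) + 1)) (hyperfilter ℕ) (𝓝 0) :=
    tendsto_one_div_add_atTop_nhds_zero_nat.mono_left Nat.hyperfilter_le_atTop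
  have h1 : Tendsto (fun k => a k - z₀) (hyperfilter ℕ) (𝓝 0) :=
    squeeze_zero_norm (fun k => (haz k).le) ht
  have h2 : Tendsto (fun k => a k - b k) (hyperfilter ℕ) (𝓝 0) :=
    squeeze_zero_norm (fun k => (hlt k).le) ht
  have hta : Tendsto a (hyperfilter ℕ) (𝓝 z₀) := by
    have h3 := h1.add_const z₀
    rw [zero_add] at h3
    refine h3.congr fun k => ?_
    ring
  have htb : Tendsto b (hyperfilter ℕ) (𝓝 z₀) := by
    have h3 := hta.sub h2
    rw [sub_zero] at h3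
    refine h3.congr fun k => ?_
    ring
  refine hz' (limit_mem (hyperfilter ℕ) hz a b (fun k => (Q k).coeff) hQ hQ0 hta htb ?_ ?_)
  · refine tendsto_const_nhds.congr fun k => ?_
    rw [ser_coeff, ha k]
  · refine tendsto_const_nhds.congr fun k => ?_
    rw [dd_coeff (Q k) (ha k) (hb k) (hab k)]

/-- In some neighbourhood of `z` no root of a polynomial in a `T n` is near to another one. -/
def Apart (T : ℕ → Set ℤ[X]) (z : ℂ) : Prop :=
  ∃ δ : ℝ, 0 < δ ∧ ∀ n : ℕ, 1 ≤ n → ∀ P ∈ T n, ∀ a b : ℂ, aeval a P = 0 → aeval b P = 0 →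
    a ≠ b → ‖a - z‖ < δ → δ ≤ ‖a - b‖

/-- Inside the disc. -/
theorem apart_in {H : ℕ} {z : ℂ} (hz : ‖z‖ < 1) (hz' : z ∉ Dbl {0}ᶜ H) :
    Apart (fun n => Sepa n H) z := by
  obtain ⟨δ, hδ, h⟩ := away hz hz'
  have hH0 : (0 : ℝ) ≤ H := Nat.cast_nonneg H
  refine ⟨min δ (1 / ((H : ℝ) + 1)), lt_min hδ (by positivity),
    fun n hn P hP a b ha hb hab haz => ?_⟩
  by_contra hlt
  rw [not_le] at hlt
  obtain ⟨Q, hQ, hQ0, hQa, hQb⟩ := exists_nonzero_const hn hP ha hb hab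
    (lt_of_lt_of_le hlt (min_le_right _ _))
  have h1 := h Q hQ hQ0 a b hQa hQb hab (lt_of_lt_of_le haz (min_le_left _ _))
  exact absurd (lt_of_lt_of_le hlt (min_le_left _ _)) (not_lt.2 h1)

/-- Outside the closed disc. -/
theorem apart_out {C : Set ℤ} {H : ℕ} {T : ℕ → Set ℤ[X]} (hT : ∀ n, T n ⊆ Sepa n H)
    (hTC : ∀ n, 1 ≤ n → ∀ P ∈ T n, P.leadingCoeff ∈ C) {z : ℂ} (hz : 1 < ‖z‖)
    (hz' : z⁻¹ ∉ Dbl C H) : Apart T z := by
  have hz1 : ‖z⁻¹‖ < 1 := by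
    rw [norm_inv]
    exact inv_lt_one_of_one_lt₀ hz
  obtain ⟨δ, hδ, h⟩ := away hz1 hz'
  refine ⟨min δ ((‖z‖ - 1) / 2), lt_min hδ (by linarith), fun n hn P hP a b ha hb hab haz => ?_⟩
  by_contra hlt
  rw [not_le] at hlt
  have haz1 := lt_of_lt_of_le haz (min_le_left _ _)
  have haz2 := lt_of_lt_of_le haz (min_le_right _ _)
  have hab1 := lt_of_lt_of_le hlt (min_le_left _ _)
  have hab2 := lt_of_lt_of_le hlt (min_le_right _ _)
  have hna : (‖z‖ + 1) / 2 < ‖a‖ := by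
    have e1 := norm_sub_norm_le z a
    rw [norm_sub_rev] at e1
    linarith
  have hnb : 1 < ‖b‖ := by
    have e1 := norm_sub_norm_le a b
    linarith
  have hna1 : 1 < ‖a‖ := by linarith
  have ha0 : a ≠ 0 := norm_pos_iff.1 (by linarith)
  have hb0 : b ≠ 0 := norm_pos_iff.1 (by linarith)
  have hz0 : z ≠ 0 := norm_pos_iff.1 (by linarith)
  have hn' := (hT n hP).1
  have hrev : ∀ w : ℂ, w ≠ 0 → aeval w P = 0 → aeval w⁻¹ P.reverse = 0 := by
    intro w hw hwP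
    have e1 := aeval_rev hn' hw
    rw [hwP] at e1
    exact (mul_eq_zero.1 e1).resolve_left (pow_ne_zero _ hw)
  have hinv : ∀ x y : ℂ, x ≠ 0 → y ≠ 0 → 1 ≤ ‖x‖ → 1 ≤ ‖y‖ → ‖x⁻¹ - y⁻¹‖ ≤ ‖x - y‖ := by
    intro x y hx hy hx1 hy1
    rw [inv_sub_inv hx hy, norm_div, norm_mul, norm_sub_rev]
    refine div_le_self (norm_nonneg _) ?_
    nlinarith
  have h1 := h P.reverse (fun i => by
      rw [coeff_reverse]
      exact (natAbs_coeff_le _ _).trans (hT n hP).2.1)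
    (by rw [coeff_zero_reverse]; exact hTC n hn P hP) a⁻¹ b⁻¹ (hrev a ha0 ha) (hrev b hb0 hb)
    (fun h => hab (inv_injective h))
    (lt_of_le_of_lt (hinv a z ha0 hz0 hna1.le hz.le) haz1)
  have h2 := hinv a b ha0 hb0 hna1.le hnb.le
  linarith

end Pool.Agent.Helper41.DZ
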