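import Pool.Agent.Helper41.DZ.Thr

/-!
# MP_418077_nt, close pairs of roots inside the unit disc: small roots and small non-real double
zeros
-/

set_option autoImplicit false

namespace Pool.Agent.Helper41.DZ

open Polynomial Filter Topology
open Pool.Agent.Helper41.RS

/-- weights: the coefficients of the powers of `X / (1 - ρ X)` -/
noncomputable def wt (ρ : ℝ) : ℕ → ℕ → ℝ
  | 0, 0 => 1
  | 0, _ + 1 => 0
  | _ + 1, 0 => 0
  | i + 1, k + 1 => ρ * wt ρ i (k + 1) + wt ρ i k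

lemma wt_nonneg {ρ : ℝ} (hρ : 0 ≤ ρ) (i k : ℕ) : 0 ≤ wt ρ i k := by
  induction i generalizing k with
  | zero => rcases k with _ | k <;> simp [wt]
  | succ i ih =>
    rcases k with _ | k
    · simp [wt]
    · rw [wt]
      have h1 := ih (k + 1)
      have h2 := ih k
      positivity

lemma sum_wt {ρ : ℝ} (hρ : 0 ≤ ρ) (hρ1 : ρ < 1) (k M : ℕ) :
    ∑ i ∈ Finset.range M, wt ρ i k ≤ ((1 - ρ)⁻¹) ^ k := by
  have h1 : 0 < 1 - ρ := by linarith
  induction k generalizing M with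
  | zero =>
    rw [pow_zero]
    rcases M with _ | M
    · simp
    · rw [Finset.sum_range_succ']
      simp [wt]
  | succ k ih =>
    rcases M with _ | M
    · simp
      positivity
    · have h2 : ∑ i ∈ Finset.range (M + 1), wt ρ i (k + 1) =
          ρ * ∑ i ∈ Finset.range M, wt ρ i (k + 1) + ∑ i ∈ Finset.range M, wt ρ i k := by
        rw [Finset.sum_range_succ', Finset.mul_sum, ← Finset.sum_add_distrib]
        simp [wt]
      have h3 : ∑ i ∈ Finset.range M, wt ρ i (k + 1) ≤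
          ∑ i ∈ Finset.range (M + 1), wt ρ i (k + 1) := by
        rw [Finset.sum_range_succ]
        have := wt_nonneg hρ M (k + 1)
        linarith
      have h4 := ih M
      have h5 : (1 - ρ) * ∑ i ∈ Finset.range (M + 1), wt ρ i (k + 1) ≤ ((1 - ρ)⁻¹) ^ k := by
        nlinarith
      rw [pow_succ, ← div_eq_mul_inv, le_div_iff₀ h1]
      linarith

lemma wt_step {ρ : ℝ} (hρ : 0 ≤ ρ) {t : ℂ} (ht : ‖t‖ ≤ ρ) (Q : ℂ[X]) {M : ℕ}
    (hM : Q.natDegree < M) (k : ℕ) :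
    ∑ i ∈ Finset.range M, ‖Q.coeff i‖ * wt ρ i k ≤
      ∑ i ∈ Finset.range (M + 1), ‖((X - C t) * Q).coeff i‖ * wt ρ i (k + 1) := by
  have hc : ∀ i, ((X - C t) * Q).coeff (i + 1) = Q.coeff i - t * Q.coeff (i + 1) := by
    intro i
    rw [sub_mul, coeff_sub, coeff_X_mul, coeff_C_mul]
  rw [Finset.sum_range_succ']
  have h0 : ‖((X - C t) * Q).coeff 0‖ * wt ρ 0 (k + 1) = 0 := by simp [wt]
  rw [h0, add_zero]
  have h1 : ∀ i ∈ Finset.range M, (‖Q.coeff i‖ - ρ * ‖Q.coeff (i + 1)‖) * wt ρ (i + 1) (k + 1) ≤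
      ‖((X - C t) * Q).coeff (i + 1)‖ * wt ρ (i + 1) (k + 1) := by
    intro i _
    have h2 := wt_nonneg hρ (i + 1) (k + 1)
    refine mul_le_mul_of_nonneg_right ?_ h2
    rw [hc]
    have h3 := norm_sub_norm_le (Q.coeff i) (t * Q.coeff (i + 1))
    rw [norm_mul] at h3
    have h4 : ‖t‖ * ‖Q.coeff (i + 1)‖ ≤ ρ * ‖Q.coeff (i + 1)‖ := by gcongr
    linarith
  refine le_trans (le_of_eq ?_) (Finset.sum_le_sum h1)
  have h5 : ∑ i ∈ Finset.range M, ‖Q.coeff (i + 1)‖ * wt ρ (i + 1) (k + 1) =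
      ∑ i ∈ Finset.range M, ‖Q.coeff i‖ * wt ρ i (k + 1) := by
    have e1 := Finset.sum_range_succ' (fun i => ‖Q.coeff i‖ * wt ρ i (k + 1)) M
    have e2 := Finset.sum_range_succ (fun i => ‖Q.coeff i‖ * wt ρ i (k + 1)) M
    rw [coeff_eq_zero_of_natDegree_lt hM, norm_zero, zero_mul, add_zero] at e2
    have e3 : ‖Q.coeff 0‖ * wt ρ 0 (k + 1) = 0 := by simp [wt]
    rw [e3, add_zero] at e1
    linarith
  have h6 : ∀ i ∈ Finset.range M, (‖Q.coeff i‖ - ρ * ‖Q.coeff (i + 1)‖) * wt ρ (i + 1) (k + 1) =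
      ρ * (‖Q.coeff i‖ * wt ρ i (k + 1)) + ‖Q.coeff i‖ * wt ρ i k -
        ρ * (‖Q.coeff (i + 1)‖ * wt ρ (i + 1) (k + 1)) := by
    intro i _
    rw [sub_mul]
    have e1 : ‖Q.coeff i‖ * wt ρ (i + 1) (k + 1) =
        ρ * (‖Q.coeff i‖ * wt ρ i (k + 1)) + ‖Q.coeff i‖ * wt ρ i k := by
      rw [wt]
      ring
    rw [e1]
    ring
  rw [Finset.sum_congr rfl h6, Finset.sum_sub_distrib, Finset.sum_add_distrib, ← Finset.mul_sum,
    ← Finset.mul_sum, h5]
  ring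

lemma wt_multi {ρ : ℝ} (hρ : 0 ≤ ρ) (s : Multiset ℂ) (hs : ∀ t ∈ s, ‖t‖ ≤ ρ) (Q : ℂ[X]) {M : ℕ}
    (hM : Q.natDegree < M) (k : ℕ) :
    ∑ i ∈ Finset.range M, ‖Q.coeff i‖ * wt ρ i k ≤
      ∑ i ∈ Finset.range (M + s.card),
        ‖((s.map fun t => (X - C t : ℂ[X])).prod * Q).coeff i‖ * wt ρ i (k + s.card) := by
  induction s using Multiset.induction_on generalizing Q M k with
  | empty => simp
  | cons a s ih =>
    have h1 := wt_step hρ (hs a (Multiset.mem_cons_self a s)) Q hM k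
    have h2 : ((X - C a) * Q).natDegree < M + 1 := by
      have e1 := natDegree_mul_le (p := (X - C a : ℂ[X])) (q := Q)
      rw [natDegree_X_sub_C] at e1
      omega
    have h3 := ih (fun b hb => hs b (Multiset.mem_cons_of_mem hb)) ((X - C a) * Q) h2 (k + 1)
    refine (h1.trans h3).trans (le_of_eq ?_)
    rw [Multiset.card_cons, Multiset.map_cons, Multiset.prod_cons,
      (by ring : (X - C a) * (s.map fun t => (X - C t : ℂ[X])).prod * Q =
        (s.map fun t => (X - C t : ℂ[X])).prod * ((X - C a) * Q)),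
      (by ring : M + (s.card + 1) = M + 1 + s.card), (by ring : k + (s.card + 1) = k + 1 + s.card)]

/-- Many small roots need a large height. -/
theorem few_roots {H : ℕ} {P : ℤ[X]} (hP : ∀ i, (P.coeff i).natAbs ≤ H) (h0 : P.coeff 0 ≠ 0)
    {ρ : ℝ} (hρ : 0 ≤ ρ) (hρ1 : ρ < 1) (s : Finset ℂ)
    (hs : ∀ t ∈ s, ‖t‖ ≤ ρ ∧ aeval t P = 0) : 1 ≤ (H : ℝ) * (ρ / (1 - ρ)) ^ s.card := by
  have hP0 : P ≠ 0 := by
    rintro rfl
    exact h0 (coeff_zero _)
  have hinj : Function.Injective (Int.castRingHom ℂ) := RingHom.injective_int _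
  have hPm : P.map (Int.castRingHom ℂ) ≠ 0 := (Polynomial.map_ne_zero_iff hinj).2 hP0
  have hle : s.val ≤ (P.map (Int.castRingHom ℂ)).roots := by
    rw [Multiset.le_iff_subset s.nodup]
    intro t ht
    rw [mem_roots hPm, IsRoot.def]
    have h1 := (hs t ht).2
    rw [aeval_def, eval₂_eq_eval_map] at h1
    exact h1
  obtain ⟨Q, hQ⟩ := (Multiset.prod_X_sub_C_dvd_iff_le_roots hPm s.val).2 hle
  have h1 := wt_multi hρ s.val (fun t ht => (hs t ht).1) Q (Nat.lt_succ_self Q.natDegree) 0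
  rw [← hQ, Finset.card_val, zero_add] at h1
  have h2 : ‖Q.coeff 0‖ ≤
      ∑ i ∈ Finset.range (Q.natDegree + 1), ‖Q.coeff i‖ * wt ρ i 0 := by
    rw [Finset.sum_range_succ']
    have e1 : ‖Q.coeff 0‖ * wt ρ 0 0 = ‖Q.coeff 0‖ := by simp [wt]
    rw [e1]
    have e2 : 0 ≤ ∑ i ∈ Finset.range Q.natDegree, ‖Q.coeff (i + 1)‖ * wt ρ (i + 1) 0 :=
      Finset.sum_nonneg fun i _ => mul_nonneg (norm_nonneg _) (wt_nonneg hρ _ _)
    linarith
  have h3 : ∑ i ∈ Finset.range (Q.natDegree + 1 + s.card),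
      ‖(P.map (Int.castRingHom ℂ)).coeff i‖ * wt ρ i s.card ≤ H * ((1 - ρ)⁻¹) ^ s.card := by
    have e1 : ∀ i ∈ Finset.range (Q.natDegree + 1 + s.card),
        ‖(P.map (Int.castRingHom ℂ)).coeff i‖ * wt ρ i s.card ≤ H * wt ρ i s.card := by
      intro i _
      refine mul_le_mul_of_nonneg_right ?_ (wt_nonneg hρ _ _)
      rw [coeff_map, eq_intCast]
      exact norm_coeff_le (hP i)
    refine (Finset.sum_le_sum e1).trans ?_
    rw [← Finset.mul_sum]
    have := sum_wt hρ hρ1 s.card (Q.natDegree + 1 + s.card)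
    gcongr
  have h4 : ((P.coeff 0 : ℤ) : ℂ) = (∏ t ∈ s, (-t)) * Q.coeff 0 := by
    have e1 := congrArg (fun q => q.coeff 0) hQ
    simp only [coeff_map, eq_intCast] at e1
    rw [e1, mul_coeff_zero]
    congr 1
    rw [coeff_zero_multiset_prod, Multiset.map_map]
    unfold Finset.prod
    congr 1
    refine Multiset.map_congr rfl fun t _ => ?_
    simp
  have h5 : (1 : ℝ) ≤ ‖((P.coeff 0 : ℤ) : ℂ)‖ := by
    rw [Complex.norm_intCast]
    exact_mod_cast Int.one_le_abs h0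
  have h6 : ‖∏ t ∈ s, (-t)‖ ≤ ρ ^ s.card := by
    rw [norm_prod, ← Finset.prod_const]
    refine Finset.prod_le_prod (fun t _ => norm_nonneg _) fun t ht => ?_
    rw [norm_neg]
    exact (hs t ht).1
  calc (1 : ℝ) ≤ ‖∏ t ∈ s, (-t)‖ * ‖Q.coeff 0‖ := by rw [← norm_mul, ← h4]; exact h5
    _ ≤ ρ ^ s.card * (H * ((1 - ρ)⁻¹) ^ s.card) := by
      have := (h2.trans h1).trans h3
      gcongr
    _ = H * (ρ / (1 - ρ)) ^ s.card := by
      rw [div_pow, inv_pow]
      ring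

/-- Small non-real double zeros. -/
theorem nonreal_aux {H : ℕ} (hH : 1 ≤ H) {z : ℂ} (hz : z ∈ Dbl {0}ᶜ H) (hi : z.im ≠ 0) :
    1 ≤ (H : ℝ) * (‖z‖ / (1 - ‖z‖)) ^ 4 := by
  have hz1 := hz.1
  obtain ⟨l, hl0, hl1, hev⟩ := exp_in (by simp) hH hz
  have hpow : Tendsto (fun n : ℕ => l ^ n) atTop (𝓝 0) :=
    tendsto_pow_atTop_nhds_zero_of_lt_one hl0.le hl1
  have hlim : Tendsto (fun n : ℕ => (H : ℝ) * ((‖z‖ + l ^ n) / (1 - (‖z‖ + l ^ n))) ^ 4) atTop
      (𝓝 ((H : ℝ) * (‖z‖ / (1 - ‖z‖)) ^ 4)) := by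
    have e1 : Tendsto (fun n : ℕ => ‖z‖ + l ^ n) atTop (𝓝 ‖z‖) := by
      have := hpow.const_add ‖z‖
      rwa [add_zero] at this
    have e2 : Tendsto (fun n : ℕ => 1 - (‖z‖ + l ^ n)) atTop (𝓝 (1 - ‖z‖)) := e1.const_sub 1
    exact ((e1.div e2 (by linarith)).pow 4).const_mul _
  have hH0 : (0 : ℝ) ≤ H := Nat.cast_nonneg H
  have hs1 : ∀ᶠ n : ℕ in atTop, l ^ n < 1 - ‖z‖ := hpow.eventually (gt_mem_nhds (by linarith))
  have hs2 : ∀ᶠ n : ℕ in atTop, l ^ n < 1 / ((H : ℝ) + 1) / 2 :=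
    hpow.eventually (gt_mem_nhds (by positivity))
  have hs3 : ∀ᶠ n : ℕ in atTop, l ^ n < |z.im| :=
    hpow.eventually (gt_mem_nhds (abs_pos.2 hi))
  refine ge_of_tendsto hlim ?_
  filter_upwards [hev, hs1, hs2, hs3, eventually_ge_atTop 1] with n hn h1 h2 h3 hn1
  obtain ⟨P, hP, a, b, ha, hb, hab, haz, hbz⟩ := hn
  obtain ⟨Q, hQ, hQ0, hQa, hQb⟩ := exists_nonzero_const hn1 hP.1 ha hb hab (by
    have e2 : a - b = (a - z) - (b - z) := by ring
    rw [e2]
    have e3 := norm_sub_le (a - z) (b - z)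
    linarith)
  have hconj : ∀ w : ℂ, aeval w Q = 0 → aeval (starRingEnd ℂ w) Q = 0 := by
    intro w hw
    have e1 : aeval (starRingEnd ℂ w) Q = starRingEnd ℂ (aeval w Q) := by
      rw [aeval_eq_range Q Q.natDegree le_rfl, aeval_eq_range Q Q.natDegree le_rfl, map_sum]
      refine Finset.sum_congr rfl fun i _ => ?_
      rw [map_mul, map_pow, map_intCast]
    rw [e1, hw, map_zero]
  have hnorm : ∀ w : ℂ, ‖w - z‖ ≤ l ^ n → ‖w‖ ≤ ‖z‖ + l ^ n := by
    intro w hw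
    have e1 : w = z + (w - z) := by ring
    rw [e1]
    exact (norm_add_le _ _).trans (by linarith)
  have him : ∀ w : ℂ, ‖w - z‖ ≤ l ^ n → 0 < z.im * w.im := by
    intro w hw
    have e1 := (Complex.abs_im_le_norm (w - z)).trans hw
    rw [Complex.sub_im] at e1
    have e2 := e1.trans_lt h3
    rcases lt_or_gt_of_ne hi with h4 | h4
    · rw [abs_of_neg h4, abs_lt] at e2
      nlinarith [e2.1, e2.2]
    · rw [abs_of_pos h4, abs_lt] at e2
      nlinarith [e2.1, e2.2]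
  have hia := him a haz
  have hib := him b hbz
  have hne : ∀ v w : ℂ, 0 < z.im * v.im → 0 < z.im * w.im → v ≠ starRingEnd ℂ w := by
    intro v w hv hw h
    rw [h, Complex.conj_im] at hv
    linarith
  classical
  have hcard : ({a, b, starRingEnd ℂ a, starRingEnd ℂ b} : Finset ℂ).card = 4 := by
    rw [Finset.card_insert_of_notMem, Finset.card_insert_of_notMem,
      Finset.card_insert_of_notMem, Finset.card_singleton]
    · rw [Finset.mem_singleton]
      exact fun h => hab ((starRingEnd ℂ).injective h)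
    · rw [Finset.mem_insert, Finset.mem_singleton, not_or]
      exact ⟨hne b a hib hia, hne b b hib hib⟩
    · rw [Finset.mem_insert, Finset.mem_insert, Finset.mem_singleton, not_or, not_or]
      exact ⟨hab, hne a a hia hia, hne a b hia hib⟩
  have hfew := few_roots hQ hQ0 (ρ := ‖z‖ + l ^ n) (by positivity) (by linarith)
    {a, b, starRingEnd ℂ a, starRingEnd ℂ b} (by
      intro t ht
      simp only [Finset.mem_insert, Finset.mem_singleton] at ht
      rcases ht with rfl | rfl | rfl | rfl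
      · exact ⟨hnorm _ haz, hQa⟩
      · exact ⟨hnorm _ hbz, hQb⟩
      · exact ⟨by rw [RCLike.norm_conj]; exact hnorm _ haz, hconj _ hQa⟩
      · exact ⟨by rw [RCLike.norm_conj]; exact hnorm _ hbz, hconj _ hQb⟩)
  rwa [hcard] at hfew

/-- The non-real double zeros are not small. -/
theorem lower_nonreal {H : ℕ} (hH : 1 ≤ H) {z : ℂ} (hz : z ∈ Dbl {0}ᶜ H) (hi : z.im ≠ 0) :
    1 / (1 + √√(H : ℝ)) ≤ ‖z‖ := by
  have hz1 := hz.1
  have h0 := norm_nonneg z
  have h1 := nonreal_aux hH hz hi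
  have h2 : 0 < 1 - ‖z‖ := by linarith
  rw [div_pow, ← mul_div_assoc, le_div_iff₀ (by positivity), one_mul] at h1
  have h3 : (√√(H : ℝ)) ^ 4 = H := by
    have e1 : (√√(H : ℝ)) ^ 2 = √H := Real.sq_sqrt (Real.sqrt_nonneg _)
    have e2 : (√(H : ℝ)) ^ 2 = H := Real.sq_sqrt (Nat.cast_nonneg H)
    have e3 : (√√(H : ℝ)) ^ 4 = ((√√(H : ℝ)) ^ 2) ^ 2 := by ring
    rw [e3, e1, e2]
  have h4 : (1 - ‖z‖) ^ 4 ≤ (√√(H : ℝ) * ‖z‖) ^ 4 := by
    rw [mul_pow, h3]
    exact h1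
  have h5 : 1 - ‖z‖ ≤ √√(H : ℝ) * ‖z‖ :=
    le_of_pow_le_pow_left₀ (by norm_num) (by positivity) h4
  rw [div_le_iff₀ (by positivity)]
  linarith

/-- the position of the non-real points of `Close T` -/
theorem position_nonreal {H : ℕ} (hH : 1 ≤ H) {z : ℂ} (hz : z ∈ Close fun n => Sepa n H)
    (hi : z.im ≠ 0) : 1 / (1 + √√(H : ℝ)) ≤ ‖z‖ ∧ ‖z‖ ≤ 1 + √√(H : ℝ) := by
  have h0 : 0 ≤ √√(H : ℝ) := Real.sqrt_nonneg _
  have h1 : 1 / (1 + √√(H : ℝ)) ≤ 1 := by
    rw [div_le_one (by positivity)]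
    linarith
  have hz0 : 0 < ‖z‖ := by
    refine norm_pos_iff.2 ?_
    rintro rfl
    exact hi Complex.zero_im
  rcases ((localised_all hH).1 z).1 hz with h | h | h
  · exact ⟨lower_nonreal hH h hi, h.1.le.trans (by linarith)⟩
  · rw [h]
    exact ⟨h1, by linarith⟩
  · have hi' : (z⁻¹).im ≠ 0 := by
      rw [Complex.inv_im]
      refine div_ne_zero (neg_ne_zero.2 hi) ?_
      rw [Ne, Complex.normSq_eq_zero]
      exact norm_pos_iff.1 hz0
    have h2 := lower_nonreal hH h hi'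
    have h3 := h.1
    rw [norm_inv] at h2 h3
    have h6 : 1 < ‖z‖ := by
      by_contra h7
      have := (one_le_inv₀ hz0).2 (not_lt.1 h7)
      linarith
    refine ⟨h1.trans h6.le, ?_⟩
    rw [one_div] at h2
    exact (inv_le_inv₀ (by positivity) hz0).1 h2

end Pool.Agent.Helper41.DZ
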