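import Mathlib

/-!
# MP_418077_nt, close pairs of roots inside the unit disc: squarefree polynomials modulo `p` with
prescribed lower coefficients
-/

set_option autoImplicit false

namespace Pool.Agent.Helper41.DZ

open Polynomial UniqueFactorizationMonoid

/-- A divisor `g` of `B` such that the irreducible factors of `B` divide `g` exactly if they do not
divide `A`. -/
lemma exists_part {F : Type*} [Field F] (A B : F[X]) (hB : B ≠ 0) :
    ∃ g : F[X], g.Monic ∧ g.natDegree ≤ B.natDegree ∧ ∀ D : F[X], Irreducible D → D ∣ B →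
      (D ∣ A → ¬ D ∣ g) ∧ (¬ D ∣ A → D ∣ g) := by
  classical
  set s : Multiset F[X] := (normalizedFactors B).filter fun D => ¬ D ∣ A with hs
  have hle : s ≤ normalizedFactors B := Multiset.filter_le _ _
  have hdvd : s.prod ∣ (normalizedFactors B).prod := Multiset.prod_dvd_prod_of_le hle
  have hassoc := prod_normalizedFactors hB
  have hsB : s.prod ∣ B := hdvd.trans hassoc.dvd
  have hmem : ∀ D, D ∈ s ↔ (Irreducible D ∧ D.Monic ∧ D ∣ B) ∧ ¬ D ∣ A := by
    intro D
    rw [hs, Multiset.mem_filter, Polynomial.mem_normalizedFactors_iff hB]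
  have hmon : s.prod.Monic := by
    have := monic_multiset_prod_of_monic s id fun D hD => ((hmem D).1 hD).1.2.1
    rwa [Multiset.map_id] at this
  refine ⟨s.prod, hmon, natDegree_le_of_dvd hsB hB, fun D hD hDB => ⟨fun hDA h => ?_, fun hDA => ?_⟩⟩
  · obtain ⟨E, hE, hDE⟩ := hD.prime.exists_mem_multiset_dvd h
    obtain ⟨⟨hE1, -, -⟩, hE2⟩ := (hmem E).1 hE
    exact hE2 ((hD.associated_of_dvd hE1 hDE).symm.dvd.trans hDA)
  · have hn := associated_normalize D
    have hmemD : normalize D ∈ s := by
      rw [hmem]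
      refine ⟨⟨hn.irreducible hD, monic_normalize hD.ne_zero, hn.symm.dvd.trans hDB⟩, fun h => ?_⟩
      exact hDA (hn.dvd.trans h)
    exact hn.dvd.trans (Multiset.dvd_prod hmemD)

/-- Squarefree polynomials modulo `p` with given lower coefficients. -/
theorem exists_mod (p : ℕ) [Fact p.Prime] (A : (ZMod p)[X]) (N : ℕ) (hA : A.natDegree ≤ N)
    (hA0 : A.coeff 0 ≠ 0) (n : ℕ) (hn : (p + 1) * (N + 1) ≤ n) (hnp : ¬ p ∣ n) :
    ∃ P : (ZMod p)[X], P.Monic ∧ P.natDegree = n ∧ (∀ i ≤ N, P.coeff i = A.coeff i) ∧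
      IsCoprime P (derivative P) := by
  have hp : p.Prime := Fact.out
  have hp1 : 1 < p := hp.one_lt
  set j : ℕ := n % p with hj
  have hj0 : (j : ZMod p) ≠ 0 := by
    rw [Ne, ZMod.natCast_eq_zero_iff, hj, Nat.dvd_mod_iff dvd_rfl]
    exact hnp
  have hjp : j < p := Nat.mod_lt _ hp.pos
  set B : (ZMod p)[X] := X * derivative A - C (j : ZMod p) * A with hB
  have hB0 : B.coeff 0 ≠ 0 := by
    rw [hB, coeff_sub, coeff_X_mul_zero, coeff_C_mul, zero_sub, neg_ne_zero]
    exact mul_ne_zero hj0 hA0
  have hBne : B ≠ 0 := by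
    intro h
    rw [h, coeff_zero] at hB0
    exact hB0 rfl
  have hBdeg : B.natDegree ≤ N := by
    refine natDegree_le_iff_coeff_eq_zero.2 fun i hi => ?_
    rw [hB, coeff_sub, coeff_C_mul]
    obtain ⟨k, rfl⟩ : ∃ k, i = k + 1 := ⟨i - 1, by omega⟩
    rw [coeff_X_mul, coeff_derivative, coeff_eq_zero_of_natDegree_lt (by omega : A.natDegree < k + 1)]
    ring
  obtain ⟨g₀, hg₀m, hg₀d, hg₀⟩ := exists_part A B hBne
  set s : ℕ := n / p - g₀.natDegree with hs
  have hdiv : N + 1 ≤ n / p := by
    rw [Nat.le_div_iff_mul_le hp.pos]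
    nlinarith
  have hdm := Nat.div_add_mod n p
  have hsum : j + p * (s + g₀.natDegree) = n := by
    have : s + g₀.natDegree = n / p := by omega
    rw [this, hj]
    omega
  have hjs : N < j + p * s := by
    have h1 : p * g₀.natDegree ≤ p * N := Nat.mul_le_mul_left _ (hg₀d.trans hBdeg)
    have h2 : (p + 1) * (N + 1) = p * N + p + N + 1 := by ring
    have h3 : p * (s + g₀.natDegree) = p * s + p * g₀.natDegree := by ring
    omega
  set g : (ZMod p)[X] := X ^ s * g₀ with hg
  set G : (ZMod p)[X] := X ^ j * g ^ p with hG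
  have hgm : g.Monic := (monic_X_pow s).mul hg₀m
  have hGm : G.Monic := (monic_X_pow j).mul (hgm.pow p)
  have hGd : G.natDegree = n := by
    rw [hG, (monic_X_pow j).natDegree_mul (hgm.pow p), natDegree_X_pow, hgm.natDegree_pow, hg,
      (monic_X_pow s).natDegree_mul hg₀m, natDegree_X_pow]
    exact hsum
  have hNn : N < n := by nlinarith
  have hPm : (A + G).Monic := by
    refine hGm.add_of_right ?_
    exact degree_lt_degree (by omega)
  have hPd : (A + G).natDegree = n := by
    rw [natDegree_add_eq_right_of_natDegree_lt (by omega), hGd]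
  -- the derivative of `G`
  have hGder : X * derivative G = C (j : ZMod p) * G := by
    have h1 : derivative (g ^ p) = 0 := by
      rw [derivative_pow]
      simp
    rw [hG, derivative_mul, h1, mul_zero, add_zero, derivative_X_pow]
    rcases Nat.eq_zero_or_pos j with h0 | h0
    · rw [h0]
      simp
    · have h2 : (X : (ZMod p)[X]) ^ j = X * X ^ (j - 1) := by
        rw [← pow_succ']
        congr 1
        omega
      rw [h2]
      ring
  have hkey : X * derivative (A + G) - C (j : ZMod p) * (A + G) = B := by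
    rw [derivative_add, mul_add, hGder, hB]
    ring
  refine ⟨A + G, hPm, hPd, fun i hi => ?_, ?_⟩
  · have h1 : G = X ^ (j + p * s) * g₀ ^ p := by
      rw [hG, hg]
      ring
    rw [coeff_add, h1, coeff_X_pow_mul', if_neg (by omega), add_zero]
  · refine isCoprime_of_irreducible_dvd (fun h => hPm.ne_zero h.1) fun D hD h1 h2 => ?_
    have hDB : D ∣ B := by
      rw [← hkey]
      exact dvd_sub (h2.mul_left _) (h1.mul_left _)
    obtain ⟨k1, k2⟩ := hg₀ D hD hDB
    by_cases hDA : D ∣ A
    · have hDG : D ∣ G := (dvd_add_right hDA).1 h1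
      have hDX : ¬ D ∣ X := by
        intro h
        have h3 : X ∣ A := (hD.associated_of_dvd irreducible_X h).symm.dvd.trans hDA
        exact hA0 (X_dvd_iff.1 h3)
      rcases hD.prime.dvd_or_dvd hDG with h3 | h3
      · exact hDX (hD.prime.dvd_of_dvd_pow h3)
      · rcases hD.prime.dvd_or_dvd (hD.prime.dvd_of_dvd_pow h3) with h4 | h4
        · exact hDX (hD.prime.dvd_of_dvd_pow h4)
        · exact k1 hDA h4
    · have hDG : D ∣ G := by
        rw [hG, hg]
        exact (((k2 hDA).mul_left _).pow (by omega)).mul_left _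
      exact hDA ((dvd_add_left hDG).1 h1)

end Pool.Agent.Helper41.DZ
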