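import Pool.Agent.Helper41.DZ.Comp
import Pool.Agent.Helper41.DZ.Modp

/-!
# MP_418077_nt, close pairs of roots inside the unit disc: separable polynomials with prescribed
lower coefficients
-/

set_option autoImplicit false

namespace Pool.Agent.Helper41.DZ

open Polynomial
open Pool.Agent.Helper41.RS

/-- the polynomial with the coefficients `f i`, `i < m` -/
noncomputable def polOf {R : Type*} [Semiring R] (f : ℕ → R) (m : ℕ) : R[X] :=
  ∑ i ∈ Finset.range m, C (f i) * X ^ i

lemma coeff_polOf {R : Type*} [Semiring R] (f : ℕ → R) (m k : ℕ) :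
    (polOf f m).coeff k = if k < m then f k else 0 := by
  unfold polOf
  rw [finsetSum_coeff]
  simp only [coeff_C_mul, coeff_X_pow, mul_ite, mul_one, mul_zero]
  rw [Finset.sum_ite_eq (Finset.range m) k]
  simp only [Finset.mem_range]

lemma not_integral {p : ℕ} (hp : 2 ≤ p) {w : ℂ} (hw : IsIntegral ℤ w) : (p : ℂ) * w ≠ -1 := by
  intro h
  have hpc : (p : ℂ) ≠ 0 := by exact_mod_cast (by omega : p ≠ 0)
  have hpq : (p : ℚ) ≠ 0 := by exact_mod_cast (by omega : p ≠ 0)
  have e1 : w = algebraMap ℚ ℂ (-1 / p) := by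
    rw [eq_ratCast]
    push_cast
    rw [eq_div_iff hpc, mul_comm]
    exact h
  rw [e1, isIntegral_algebraMap_iff (algebraMap ℚ ℂ).injective] at hw
  obtain ⟨y, hy⟩ := IsIntegrallyClosed.isIntegral_iff.1 hw
  rw [eq_intCast, eq_div_iff hpq] at hy
  have h2 : y * (p : ℤ) = -1 := by exact_mod_cast hy
  have h3 : (p : ℤ) ∣ 1 := ⟨-y, by linarith⟩
  have h4 := Int.le_of_dvd one_pos h3
  omega

/-- A monic integer polynomial which is squarefree modulo `p` has simple roots. -/
lemma simple_of_mod {p : ℕ} [Fact p.Prime] {P : ℤ[X]} (hP : P.Monic)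
    (hc : IsCoprime (P.map (Int.castRingHom (ZMod p)))
      (derivative (P.map (Int.castRingHom (ZMod p))))) {z : ℂ} (hz : aeval z P = 0) :
    aeval z (derivative P) ≠ 0 := by
  intro hz'
  have hp : p.Prime := Fact.out
  obtain ⟨u, v, huv⟩ := hc
  have hsurj := Polynomial.map_surjective (Int.castRingHom (ZMod p)) (ZMod.ringHom_surjective _)
  obtain ⟨u', rfl⟩ := hsurj u
  obtain ⟨v', rfl⟩ := hsurj v
  have hF : (u' * P + v' * derivative P - 1).map (Int.castRingHom (ZMod p)) = 0 := by
    rw [Polynomial.map_sub, Polynomial.map_add, Polynomial.map_mul, Polynomial.map_mul,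
      Polynomial.map_one, ← derivative_map, huv, sub_self]
  have hdvd : C (p : ℤ) ∣ u' * P + v' * derivative P - 1 := by
    rw [C_dvd_iff_dvd_coeff]
    intro i
    have h1 := congrArg (fun q => q.coeff i) hF
    simp only [coeff_map, coeff_zero, eq_intCast] at h1
    exact (ZMod.intCast_zmod_eq_zero_iff_dvd _ _).1 h1
  obtain ⟨w, hw⟩ := hdvd
  have h1 := congrArg (aeval z) hw
  rw [map_sub, map_add, map_mul, map_mul, hz, hz', mul_zero, mul_zero, add_zero, zero_sub, map_one,
    map_mul, aeval_C] at h1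
  have hzi : IsIntegral ℤ z := ⟨P, hP, hz⟩
  have hwi : IsIntegral ℤ (aeval z w) :=
    adjoin_le_integralClosure hzi (aeval_mem_adjoin_singleton ℤ z)
  refine not_integral hp.two_le hwi ?_
  rw [h1]
  simp

/-- Separable monic polynomials of height at most `H` with prescribed lower coefficients. -/
theorem exists_poly {H : ℕ} (hH : 1 ≤ H) (c : ℕ → ℤ) (hc : ∀ i, (c i).natAbs ≤ H)
    (hc0 : c 0 ≠ 0) :
    ∃ p : ℕ, p.Prime ∧ ∀ N n : ℕ, (p + 1) * (N + 1) ≤ n → ¬ p ∣ n →
      ∃ P ∈ SepaMon n H, ∀ i ≤ N, P.coeff i = c i := by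
  obtain ⟨p, hp, hHp, hp2⟩ := Nat.exists_prime_lt_and_le_two_mul H (by omega)
  have : Fact p.Prime := ⟨hp⟩
  refine ⟨p, hp, fun N n hn hnp => ?_⟩
  have hp1 := hp.two_le
  obtain ⟨Q, hQm, hQd, hQc, hQs⟩ := exists_mod p (polOf (fun i => ((c i : ℤ) : ZMod p)) (N + 1)) N
    (natDegree_le_iff_coeff_eq_zero.2 fun i hi => by
      rw [coeff_polOf, if_neg (by omega)])
    (by
      rw [coeff_polOf, if_pos (by omega), Ne, ZMod.intCast_zmod_eq_zero_iff_dvd]
      intro h
      have h1 := Nat.le_of_dvd (Int.natAbs_pos.2 hc0) (Int.natCast_dvd.1 h)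
      have := hc 0
      omega) n hn hnp
  have hNn : N < n := by nlinarith
  set f : ℕ → ℤ := fun i => if i ≤ N then c i else (Q.coeff i).valMinAbs with hf
  have hfH : ∀ i, (f i).natAbs ≤ H := by
    intro i
    simp only [hf]
    split_ifs
    · exact hc i
    · have := (Q.coeff i).natAbs_valMinAbs_le
      omega
  have hfn : f n = 1 := by
    simp only [hf]
    rw [if_neg (by omega)]
    have h1 : Q.coeff n = ((1 : ℕ) : ZMod p) := by
      rw [← hQd, coeff_natDegree, hQm.leadingCoeff, Nat.cast_one]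
    rw [h1, ZMod.valMinAbs_natCast_of_le_half (by omega)]
    rfl
  have hd : (polOf f (n + 1)).natDegree = n := by
    refine natDegree_eq_of_le_of_coeff_ne_zero ?_ ?_
    · refine natDegree_le_iff_coeff_eq_zero.2 fun i hi => ?_
      rw [coeff_polOf, if_neg (by omega)]
    · rw [coeff_polOf, if_pos (by omega), hfn]
      exact one_ne_zero
  have hm : (polOf f (n + 1)).Monic := by
    rw [Monic, leadingCoeff, hd, coeff_polOf, if_pos (by omega), hfn]
  have hmap : (polOf f (n + 1)).map (Int.castRingHom (ZMod p)) = Q := by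
    ext i
    rw [coeff_map, coeff_polOf, eq_intCast]
    split_ifs with h1
    · simp only [hf]
      split_ifs with h2
      · rw [hQc i h2, coeff_polOf, if_pos (by omega)]
      · exact ZMod.coe_valMinAbs _
    · rw [Int.cast_zero, coeff_eq_zero_of_natDegree_lt (by omega)]
  refine ⟨polOf f (n + 1), ⟨⟨hd, height_le fun i => ?_, ?_⟩, hm⟩, fun i hi => ?_⟩
  · rw [coeff_polOf]
    split_ifs
    · exact hfH i
    · simp
  · refine nodup_of_deriv hm.ne_zero fun z hz => ?_
    exact simple_of_mod (p := p) hm (by rw [hmap]; exact hQs) hz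
  · rw [coeff_polOf, if_pos (by omega)]
    simp only [hf]
    rw [if_pos hi]

end Pool.Agent.Helper41.DZ
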