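import Mathlib

/-!
# MP_418077_nt, close pairs of roots inside the unit disc: two roots near a point
-/

set_option autoImplicit false

namespace Pool.Agent.Helper41.DZ

open Polynomial

/-- If no root is near, the Taylor coefficients are controlled by the value. -/
lemma far_roots (α : ℂ) {η : ℝ} (hη : 0 < η) (s : Multiset ℂ) (hs : ∀ a ∈ s, η ≤ ‖α - a‖)
    (j : ℕ) :
    ‖((s.map fun a => (X + C (α - a) : ℂ[X])).prod).coeff j‖ ≤
      ‖((s.map fun a => (X + C (α - a) : ℂ[X])).prod).coeff 0‖ * (s.card / η) ^ j := by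
  induction s using Multiset.induction_on generalizing j with
  | empty =>
    rw [Multiset.map_zero, Multiset.prod_zero]
    rcases j with _ | j
    · simp
    · rw [coeff_one, if_neg (by omega), norm_zero]
      positivity
  | cons a s ih =>
    have ih' := ih fun b hb => hs b (Multiset.mem_cons_of_mem hb)
    have ha := hs a (Multiset.mem_cons_self a s)
    rw [Multiset.map_cons, Multiset.prod_cons, Multiset.card_cons]
    generalize (s.map fun a => (X + C (α - a) : ℂ[X])).prod = T at ih' ⊢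
    obtain ⟨w, hw⟩ : ∃ w : ℂ, w = α - a := ⟨_, rfl⟩
    rw [← hw] at ha ⊢
    have hc0 : ((X + C w) * T).coeff 0 = w * T.coeff 0 := by
      rw [mul_coeff_zero]
      simp
    have hcs : ∀ i, ((X + C w) * T).coeff (i + 1) = T.coeff i + w * T.coeff (i + 1) := by
      intro i
      rw [add_mul, coeff_add, coeff_X_mul, coeff_C_mul]
    rcases j with _ | j
    · simp
    · rw [hcs, hc0, norm_mul]
      have h1 : ‖T.coeff j + w * T.coeff (j + 1)‖ ≤
          ‖T.coeff 0‖ * (s.card / η) ^ j + ‖w‖ * (‖T.coeff 0‖ * (s.card / η) ^ (j + 1)) := by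
        refine (norm_add_le _ _).trans ?_
        rw [norm_mul]
        have e1 := ih' j
        have e2 := ih' (j + 1)
        gcongr
      refine h1.trans ?_
      have h2 : 1 ≤ ‖w‖ / η := by rwa [one_le_div hη]
      have h3 : ‖T.coeff 0‖ * (s.card / η) ^ j ≤
          (‖w‖ / η) * (‖T.coeff 0‖ * (s.card / η) ^ j) := by
        have : 0 ≤ ‖T.coeff 0‖ * ((s.card : ℝ) / η) ^ j := by positivity
        nlinarith
      have h4 : ((s.card : ℝ) + 1) * (s.card : ℝ) ^ j ≤ ((s.card : ℝ) + 1) ^ (j + 1) := by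
        rw [pow_succ, mul_comm]
        gcongr
        linarith
      calc ‖T.coeff 0‖ * (s.card / η) ^ j + ‖w‖ * (‖T.coeff 0‖ * (s.card / η) ^ (j + 1)) ≤
          (‖w‖ / η) * (‖T.coeff 0‖ * (s.card / η) ^ j) +
            ‖w‖ * (‖T.coeff 0‖ * (s.card / η) ^ (j + 1)) := by gcongr
        _ = ‖w‖ * ‖T.coeff 0‖ * ((((s.card : ℝ) + 1) * (s.card : ℝ) ^ j) / η ^ (j + 1)) := by
          have e1 : (η : ℝ) ^ j ≠ 0 := (pow_pos hη j).ne'
          rw [div_pow, div_pow, pow_succ, pow_succ]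
          field_simp
          ring
        _ ≤ ‖w‖ * ‖T.coeff 0‖ * ((((s.card : ℝ) + 1) ^ (j + 1)) / η ^ (j + 1)) := by gcongr
        _ = ‖w‖ * ‖T.coeff 0‖ * (((s.card + 1 : ℕ) : ℝ) / η) ^ (j + 1) := by
          push_cast
          rw [div_pow]

/-- Two roots near a point where the value and the derivative are small. -/
theorem two_roots {P : ℂ[X]} (hP : P ≠ 0) (hnd : P.roots.Nodup) {n : ℕ} (hn : P.natDegree = n)
    (hn1 : 1 ≤ n) (α : ℂ) {m : ℕ} (hm : 1 ≤ m) {ε η : ℝ} (hη : 0 < η)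
    (hηn : η ≤ n) (h0 : ‖(taylor α P).coeff 0‖ ≤ ε) (h1 : ‖(taylor α P).coeff 1‖ ≤ ε)
    (h2 : 3 * ε * (n / η) ^ m < ‖(taylor α P).coeff m‖) :
    ∃ a b : ℂ, P.eval a = 0 ∧ P.eval b = 0 ∧ a ≠ b ∧ ‖a - α‖ < η ∧ ‖b - α‖ < η := by
  classical
  by_contra hcon
  push Not at hcon
  have hspl : P.roots.card = n := by
    rw [← hn]
    exact splits_iff_card_roots.1 (IsAlgClosed.splits _)
  have hε : 0 ≤ ε := (norm_nonneg _).trans h0
  have hroot : ∀ z ∈ P.roots, P.eval z = 0 := fun z hz => (mem_roots'.1 hz).2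
  obtain ⟨z₁, hz₁, hfar⟩ : ∃ z₁ ∈ P.roots, ∀ z ∈ P.roots.erase z₁, η ≤ ‖α - z‖ := by
    by_cases h : ∃ z₁ ∈ P.roots, ‖z₁ - α‖ < η
    · obtain ⟨z₁, hz₁, hlt⟩ := h
      refine ⟨z₁, hz₁, fun z hz => ?_⟩
      rw [hnd.mem_erase_iff] at hz
      rw [norm_sub_rev]
      exact hcon z₁ z (hroot _ hz₁) (hroot _ hz.2) hz.1.symm hlt
    · push Not at h
      have hne : P.roots ≠ 0 := by
        intro h3
        rw [h3, Multiset.card_zero] at hspl
        omega
      obtain ⟨z₁, hz₁⟩ := Multiset.exists_mem_of_ne_zero hne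
      refine ⟨z₁, hz₁, fun z hz => ?_⟩
      rw [norm_sub_rev]
      exact h z (Multiset.mem_of_mem_erase hz)
  set s := P.roots.erase z₁ with hs
  have hscard : s.card + 1 = n := by
    rw [hs, Multiset.card_erase_add_one hz₁, hspl]
  have hPe : P = C P.leadingCoeff * ((X - C z₁) * (s.map fun a => X - C a).prod) := by
    conv_lhs => rw [(IsAlgClosed.splits P).eq_prod_roots, ← Multiset.cons_erase hz₁,
      Multiset.map_cons, Multiset.prod_cons]
  obtain ⟨T, hT⟩ : ∃ T : ℂ[X], T = (s.map fun a => (X + C (α - a) : ℂ[X])).prod := ⟨_, rfl⟩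
  obtain ⟨w, hw⟩ : ∃ w : ℂ, w = α - z₁ := ⟨_, rfl⟩
  have hsub : ∀ a : ℂ, (X - C a).comp (X + C α) = (X + C (α - a) : ℂ[X]) := by
    intro a
    rw [sub_comp, X_comp, C_comp, C_sub]
    ring
  have hTay : taylor α P = (X + C w) * (C P.leadingCoeff * T) := by
    rw [taylor_apply]
    conv_lhs => rw [hPe]
    rw [mul_comp, mul_comp, C_comp, hsub, multiset_prod_comp, Multiset.map_map, hw, hT]
    have : (s.map ((fun p => p.comp (X + C α)) ∘ fun a => X - C a)) =
        s.map fun a => (X + C (α - a) : ℂ[X]) :=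
      Multiset.map_congr rfl fun a _ => hsub a
    rw [this]
    ring
  obtain ⟨q, hq⟩ : ∃ q : ℕ → ℂ, ∀ j, q j = P.leadingCoeff * T.coeff j := ⟨_, fun j => rfl⟩
  have ht0 : (taylor α P).coeff 0 = w * q 0 := by
    rw [hTay, mul_coeff_zero, hq, coeff_C_mul]
    simp
  have hts : ∀ j, (taylor α P).coeff (j + 1) = q j + w * q (j + 1) := by
    intro j
    rw [hTay, add_mul, coeff_add, coeff_X_mul, coeff_C_mul, coeff_C_mul, coeff_C_mul, hq, hq]
  obtain ⟨x, hx⟩ : ∃ x : ℝ, x = n / η := ⟨_, rfl⟩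
  rw [← hx] at h2
  have hx1 : 1 ≤ x := by
    rw [hx, le_div_iff₀ hη, one_mul]
    exact hηn
  have hqj : ∀ j, ‖q j‖ ≤ ‖q 0‖ * x ^ j := by
    intro j
    have h3 := far_roots α hη s hfar j
    rw [← hT] at h3
    rw [hq, hq, norm_mul, norm_mul, mul_assoc]
    refine mul_le_mul_of_nonneg_left (h3.trans ?_) (norm_nonneg _)
    have h4 : (s.card : ℝ) / η ≤ x := by
      rw [hx]
      have : (s.card : ℝ) ≤ n := by exact_mod_cast (by omega : s.card ≤ n)
      gcongr
    gcongr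
  rw [ht0] at h0
  rw [norm_mul] at h0
  have hq0 : ‖q 0‖ ≤ 2 * ε * x := by
    have h3 : q 0 = (taylor α P).coeff 1 - w * q 1 := by
      rw [hts 0]
      ring
    have h4 := hqj 1
    rw [pow_one] at h4
    have h5 : ‖w * q 1‖ ≤ ε * x := by
      rw [norm_mul]
      calc ‖w‖ * ‖q 1‖ ≤ ‖w‖ * (‖q 0‖ * x) := by gcongr
        _ = (‖w‖ * ‖q 0‖) * x := by ring
        _ ≤ ε * x := by gcongr
    have h6 : ‖q 0‖ ≤ ‖(taylor α P).coeff 1‖ + ‖w * q 1‖ := by
      rw [h3]
      exact norm_sub_le _ _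
    nlinarith
  obtain ⟨j, rfl⟩ : ∃ j, m = j + 1 := ⟨m - 1, by omega⟩
  rw [hts j] at h2
  have h3 : ‖q j + w * q (j + 1)‖ ≤ 3 * ε * x ^ (j + 1) := by
    refine (norm_add_le _ _).trans ?_
    have e1 : ‖q j‖ ≤ 2 * ε * x * x ^ j := (hqj j).trans (by gcongr)
    have e2 : ‖w * q (j + 1)‖ ≤ ε * x ^ (j + 1) := by
      rw [norm_mul]
      calc ‖w‖ * ‖q (j + 1)‖ ≤ ‖w‖ * (‖q 0‖ * x ^ (j + 1)) := by
            have := hqj (j + 1)
            gcongr
        _ = (‖w‖ * ‖q 0‖) * x ^ (j + 1) := by ring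
        _ ≤ ε * x ^ (j + 1) := by gcongr
    have e3 : 2 * ε * x * x ^ j = 2 * ε * x ^ (j + 1) := by ring
    rw [e3] at e1
    linarith
  linarith

end Pool.Agent.Helper41.DZ
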