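import Pool.Agent.Helper41.DZ.Ser
import Pool.Agent.Helper41.DZ.Lift
import Pool.Agent.Helper41.DZ.Two

/-!
# MP_418077_nt, close pairs of roots inside the unit disc: near a double zero
-/

set_option autoImplicit false

namespace Pool.Agent.Helper41.DZ

open Polynomial Filter Topology
open Pool.Agent.Helper41.RS

lemma exists_root_of {μ : ℝ} (h0 : 0 < μ) (h1 : μ < 1) {k : ℕ} (hk : k ≠ 0) :
    ∃ l : ℝ, 0 < l ∧ l < 1 ∧ l ^ k = μ := by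
  refine ⟨μ ^ ((k : ℝ)⁻¹), by positivity, ?_, Real.rpow_inv_natCast_pow h0.le hk⟩
  exact Real.rpow_lt_one h0.le h1 (by positivity)

/-- the numerical part -/
lemma numeric {μ l K τ : ℝ} (hμ0 : 0 < μ) (hμ1 : μ < 1) (hl0 : 0 < l) (hl1 : l < 1) {m q : ℕ}
    (hm : 1 ≤ m) (hq : 1 ≤ q) (hl : l ^ (4 * m * q) = μ) (hK : 0 ≤ K) (hτ : 0 < τ) :
    ∀ᶠ n : ℕ in atTop, ∀ N : ℕ, n < q * (N + 2) →
      3 * (K * μ ^ N) * ((n : ℝ) / l ^ (2 * n)) ^ m + K * μ ^ N < τ := by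
  have h1 : Tendsto (fun n : ℕ => (n : ℝ) * (l ^ 2) ^ n) atTop (𝓝 0) :=
    tendsto_self_mul_const_pow_of_lt_one (by positivity) (by nlinarith)
  have h2 : Tendsto (fun n : ℕ => 4 * (K / μ ^ 2) * ((n : ℝ) * (l ^ 2) ^ n) ^ m) atTop (𝓝 0) := by
    have h3 := (h1.pow m).const_mul (4 * (K / μ ^ 2))
    rwa [zero_pow (by omega), mul_zero] at h3
  filter_upwards [h2.eventually (gt_mem_nhds hτ), eventually_ge_atTop 1] with n hn hn1 N hN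
  refine lt_of_le_of_lt ?_ hn
  have hn1' : (1 : ℝ) ≤ n := by exact_mod_cast hn1
  have e1 : μ ^ N ≤ l ^ (4 * m * n) / μ ^ 2 := by
    rw [le_div_iff₀ (by positivity), ← pow_add]
    have e2 : (μ ^ (N + 2)) ^ q ≤ (l ^ (4 * m * n)) ^ q := by
      rw [← pow_mul, ← pow_mul]
      calc μ ^ ((N + 2) * q) ≤ μ ^ n := pow_le_pow_of_le_one hμ0.le hμ1.le (by nlinarith)
        _ = l ^ (4 * m * n * q) := by
          rw [← hl, ← pow_mul]
          congr 1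
          ring
    exact le_of_pow_le_pow_left₀ (by omega) (by positivity) e2
  have e3 : ((n : ℝ) / l ^ (2 * n)) ^ m * l ^ (4 * m * n) = ((n : ℝ) * (l ^ 2) ^ n) ^ m := by
    have e4 : l ^ (4 * m * n) = (l ^ (2 * n) * l ^ (2 * n)) ^ m := by
      rw [← pow_add, ← pow_mul]
      congr 1
      ring
    rw [e4, ← mul_pow, ← pow_mul]
    congr 1
    have : l ^ (2 * n) ≠ 0 := (pow_pos hl0 _).ne'
    field_simp
  have e5 : l ^ (4 * m * n) ≤ ((n : ℝ) * (l ^ 2) ^ n) ^ m := by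
    calc l ^ (4 * m * n) ≤ l ^ (2 * n * m) :=
          pow_le_pow_of_le_one hl0.le hl1.le (by nlinarith [Nat.zero_le (m * n)])
      _ = ((l ^ 2) ^ n) ^ m := by
        rw [← pow_mul, ← pow_mul]
        congr 1
        ring
      _ ≤ ((n : ℝ) * (l ^ 2) ^ n) ^ m := by
        gcongr
        exact le_mul_of_one_le_left (by positivity) hn1'
  have hKμ : 0 ≤ K / μ ^ 2 := by positivity
  have e6 : K * μ ^ N ≤ K / μ ^ 2 * l ^ (4 * m * n) := by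
    calc K * μ ^ N ≤ K * (l ^ (4 * m * n) / μ ^ 2) := by gcongr
      _ = K / μ ^ 2 * l ^ (4 * m * n) := by ring
  calc 3 * (K * μ ^ N) * ((n : ℝ) / l ^ (2 * n)) ^ m + K * μ ^ N ≤
      3 * (K / μ ^ 2 * l ^ (4 * m * n)) * ((n : ℝ) / l ^ (2 * n)) ^ m +
        K / μ ^ 2 * l ^ (4 * m * n) := by gcongr
    _ = 3 * (K / μ ^ 2) * (((n : ℝ) / l ^ (2 * n)) ^ m * l ^ (4 * m * n)) +
        K / μ ^ 2 * l ^ (4 * m * n) := by ring
    _ ≤ 3 * (K / μ ^ 2) * ((n : ℝ) * (l ^ 2) ^ n) ^ m +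
        K / μ ^ 2 * ((n : ℝ) * (l ^ 2) ^ n) ^ m := by
      rw [e3]
      gcongr
    _ = 4 * (K / μ ^ 2) * ((n : ℝ) * (l ^ 2) ^ n) ^ m := by ring

/-- The basic approximation: two roots near a double zero. -/
theorem near_aux {H : ℕ} (hH : 1 ≤ H) {α : ℂ} (hα : ‖α‖ < 1) {c : ℕ → ℤ}
    (hc : ∀ i, (c i).natAbs ≤ H) (hc0 : c 0 ≠ 0) (h0 : ser c α = 0) (h1 : der c α = 0) :
    ∃ l : ℝ, 0 < l ∧ l < 1 ∧ ∃ p : ℕ, 2 ≤ p ∧ ∀ᶠ n : ℕ in atTop, ¬ p ∣ n →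
      ∃ P ∈ SepaMon n H, P.coeff 0 = c 0 ∧ ∃ a b : ℂ, aeval a P = 0 ∧ aeval b P = 0 ∧ a ≠ b ∧
        ‖a - α‖ < l ^ (2 * n) ∧ ‖b - α‖ < l ^ (2 * n) := by
  obtain ⟨μ, hμα, hμ1⟩ := exists_between hα
  have hμ0 : 0 < μ := (norm_nonneg _).trans_lt hμα
  obtain ⟨p, hp, hpoly⟩ := exists_poly hH c hc hc0
  obtain ⟨m, hm⟩ := exists_tc_ne hc hc0 hα
  have hm1 : 1 ≤ m := by
    by_contra h
    have h2 : m = 0 := by omega
    rw [h2, tc_zero] at hm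
    exact hm h0
  obtain ⟨K₀, hK₀, hA₀⟩ := tc_approx hc hμα hμ1 0
  obtain ⟨K₁, hK₁, hA₁⟩ := tc_approx hc hμα hμ1 1
  obtain ⟨K₂, hK₂, hA₂⟩ := tc_approx hc hμα hμ1 m
  obtain ⟨K, hK⟩ : ∃ K : ℝ, K = K₀ + K₁ + K₂ := ⟨_, rfl⟩
  have hK0 : 0 ≤ K := by rw [hK]; positivity
  obtain ⟨l, hl0, hl1, hl⟩ := exists_root_of hμ0 hμ1 (k := 4 * m * (p + 1)) (by positivity)
  have hτ : 0 < ‖tc c m α‖ := norm_pos_iff.2 hm
  refine ⟨l, hl0, hl1, p, hp.two_le, ?_⟩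
  filter_upwards [numeric hμ0 hμ1 hl0 hl1 hm1 (by omega : 1 ≤ p + 1) hl hK0 hτ,
    eventually_ge_atTop (p + 1)] with n hn hnq hpn
  obtain ⟨N, hN⟩ : ∃ N, n / (p + 1) = N + 1 := by
    have : 0 < n / (p + 1) := Nat.div_pos hnq (by omega)
    exact ⟨n / (p + 1) - 1, by omega⟩
  have hN1 : (p + 1) * (N + 1) ≤ n := by
    rw [← hN]
    exact Nat.mul_div_le n (p + 1)
  have hN2 : n < (p + 1) * (N + 2) := by
    have h3 := Nat.lt_mul_div_succ n (by omega : 0 < p + 1)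
    rwa [hN] at h3
  obtain ⟨P, hP, hPc⟩ := hpoly N n hN1 hpn
  have hn1 : 1 ≤ n := by omega
  have hPH : ∀ i, (P.coeff i).natAbs ≤ H := fun i => (natAbs_coeff_le P i).trans hP.1.2.1
  have hP0 : P ≠ 0 := ne_zero_of_mem hn1 hP.1
  have hinj : Function.Injective (Int.castRingHom ℂ) := RingHom.injective_int _
  have hPm : P.map (Int.castRingHom ℂ) ≠ 0 := (Polynomial.map_ne_zero_iff hinj).2 hP0
  have hnd : (P.map (Int.castRingHom ℂ)).roots.Nodup := by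
    have h3 := hP.1.2.2
    rw [aroots_def] at h3
    exact h3
  have hdeg : (P.map (Int.castRingHom ℂ)).natDegree = n := by
    rw [natDegree_map_eq_of_injective hinj]
    exact hP.1.1
  have hnum := hn N hN2
  have hμN : 0 ≤ μ ^ N := by positivity
  have hev : ∀ z : ℂ, (P.map (Int.castRingHom ℂ)).eval z = aeval z P := by
    intro z
    rw [aeval_def, eval₂_eq_eval_map]
    rfl
  have t0 : ‖(taylor α (P.map (Int.castRingHom ℂ))).coeff 0‖ ≤ K * μ ^ N := by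
    have h3 := hA₀ N P.coeff hPH hPc
    rw [tc_zero c, h0, sub_zero] at h3
    rw [taylor_tc]
    refine h3.trans ?_
    gcongr
    rw [hK]
    linarith
  have t1 : ‖(taylor α (P.map (Int.castRingHom ℂ))).coeff 1‖ ≤ K * μ ^ N := by
    have h3 := hA₁ N P.coeff hPH hPc
    rw [tc_one c, h1, sub_zero] at h3
    rw [taylor_tc]
    refine h3.trans ?_
    gcongr
    rw [hK]
    linarith
  have t2 : ‖tc c m α‖ ≤ ‖(taylor α (P.map (Int.castRingHom ℂ))).coeff m‖ + K * μ ^ N := by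
    have h3 := hA₂ N P.coeff hPH hPc
    have h4 := norm_sub_norm_le (tc c m α) (tc P.coeff m α)
    rw [norm_sub_rev] at h4
    have h5 : K₂ * μ ^ N ≤ K * μ ^ N := by
      gcongr
      rw [hK]
      linarith
    rw [taylor_tc]
    linarith
  have hη : 0 < l ^ (2 * n) := pow_pos hl0 _
  have hηn : l ^ (2 * n) ≤ n := by
    have e1 : l ^ (2 * n) ≤ 1 := pow_le_one₀ hl0.le hl1.le
    have e2 : (1 : ℝ) ≤ n := by exact_mod_cast hn1
    linarith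
  obtain ⟨a, b, ha, hb, hab, haα, hbα⟩ := two_roots hPm hnd hdeg hn1 α hm1 hη hηn t0 t1
    (by linarith)
  rw [hev] at ha hb
  exact ⟨P, hP, hPc 0 (Nat.zero_le _), a, b, ha, hb, hab, haα, hbα⟩

/-- Exponentially close pairs of roots near `z`. -/
def ExpAt (T : ℕ → Set ℤ[X]) (z : ℂ) : Prop :=
  ∃ l : ℝ, 0 < l ∧ l < 1 ∧ ∀ᶠ n : ℕ in atTop, ∃ P ∈ T n, ∃ a b : ℂ, aeval a P = 0 ∧
    aeval b P = 0 ∧ a ≠ b ∧ ‖a - z‖ ≤ l ^ n ∧ ‖b - z‖ ≤ l ^ n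

/-- The multiplication by `X`. -/
lemma X_mul_mem {n H : ℕ} (hn : 1 ≤ n) {P : ℤ[X]} (hP : P ∈ Sepa n H) (h0 : P.coeff 0 ≠ 0) :
    X * P ∈ Sepa (n + 1) H ∧ (X * P).leadingCoeff = P.leadingCoeff ∧
      ∀ z : ℂ, aeval z P = 0 → aeval z (X * P) = 0 := by
  have hP0 := ne_zero_of_mem hn hP
  refine ⟨⟨?_, ?_, ?_⟩, ?_, ?_⟩
  · rw [natDegree_X_mul hP0, hP.1]
  · refine height_le fun i => ?_
    rcases i with _ | i
    · rw [coeff_X_mul_zero]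
      simp
    · rw [coeff_X_mul]
      exact (natAbs_coeff_le P i).trans hP.2.1
  · refine nodup_of_deriv (mul_ne_zero X_ne_zero hP0) fun z hz => ?_
    rw [map_mul, aeval_X] at hz
    rw [derivative_mul, derivative_X, one_mul, map_add, map_mul, aeval_X]
    rcases mul_eq_zero.1 hz with h | h
    · rw [h, zero_mul, add_zero, aeval_def, eval₂_at_zero]
      intro h2
      have h3 : ((P.coeff 0 : ℤ) : ℂ) = 0 := h2
      exact h0 (by exact_mod_cast h3)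
    · rw [h, zero_add]
      have h1 := deriv_ne_zero hP0 hP.2.2 h
      refine mul_ne_zero ?_ h1
      rintro rfl
      rw [aeval_def, eval₂_at_zero] at h
      have h3 : ((P.coeff 0 : ℤ) : ℂ) = 0 := h
      exact h0 (by exact_mod_cast h3)
  · rw [leadingCoeff_mul, leadingCoeff_X, one_mul]
  · intro z hz
    rw [map_mul, hz, mul_zero]

/-- Inside the disc. -/
theorem exp_in {C : Set ℤ} (hC : (0 : ℤ) ∉ C) {H : ℕ} (hH : 1 ≤ H) {z : ℂ} (hz : z ∈ Dbl C H) :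
    ExpAt (fun n => SepaMon n H) z := by
  obtain ⟨hz1, c, hc, hc0, hs, hd⟩ := hz
  have hc0' : c 0 ≠ 0 := fun h => hC (h ▸ hc0)
  obtain ⟨l, hl0, hl1, p, hp, hev⟩ := near_aux hH hz1 hc hc0' hs hd
  refine ⟨l, hl0, hl1, ?_⟩
  have hev2 := (tendsto_sub_atTop_nat 1).eventually hev
  filter_upwards [hev, hev2, eventually_ge_atTop 2] with n hn1 hn2 hn
  by_cases hpn : p ∣ n
  · have hpn' : ¬ p ∣ n - 1 := by
      intro h
      have h2 := (Nat.dvd_sub hpn h)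
      have h3 : n - (n - 1) = 1 := by omega
      rw [h3] at h2
      have := Nat.le_of_dvd one_pos h2
      omega
    obtain ⟨P, hP, hPc, a, b, ha, hb, hab, haz, hbz⟩ := hn2 hpn'
    obtain ⟨hX1, hX2, hX3⟩ := X_mul_mem (by omega) hP.1 (by rw [hPc]; exact hc0')
    have hle : l ^ (2 * (n - 1)) ≤ l ^ n := pow_le_pow_of_le_one hl0.le hl1.le (by omega)
    refine ⟨X * P, ⟨?_, ?_⟩, a, b, hX3 a ha, hX3 b hb, hab, haz.le.trans hle, hbz.le.trans hle⟩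
    · have h4 : n - 1 + 1 = n := by omega
      rwa [h4] at hX1
    · rw [Monic, hX2]
      exact hP.2
  · obtain ⟨P, hP, hPc, a, b, ha, hb, hab, haz, hbz⟩ := hn1 hpn
    have hle : l ^ (2 * n) ≤ l ^ n := pow_le_pow_of_le_one hl0.le hl1.le (by omega)
    exact ⟨P, hP, a, b, ha, hb, hab, haz.le.trans hle, hbz.le.trans hle⟩

/-- inversion near a point -/
lemma inv_near {a α : ℂ} {t : ℝ} (hα : α ≠ 0) (ha : a ≠ 0) (h1 : ‖a - α‖ < t) (h2 : t ≤ ‖α‖ / 2) :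
    ‖a⁻¹ - α⁻¹‖ ≤ 2 / ‖α‖ ^ 2 * t := by
  have hα' : 0 < ‖α‖ := norm_pos_iff.2 hα
  have ha' : 0 < ‖a‖ := norm_pos_iff.2 ha
  have h3 : ‖α‖ / 2 ≤ ‖a‖ := by
    have e1 := norm_sub_norm_le α a
    rw [norm_sub_rev] at e1
    linarith
  have ht : 0 ≤ t := (norm_nonneg _).trans h1.le
  rw [inv_sub_inv ha hα, norm_div, norm_mul, norm_sub_rev, div_le_iff₀ (by positivity)]
  have h4 : 2 / ‖α‖ ^ 2 * t * (‖a‖ * ‖α‖) = (2 * ‖a‖ / ‖α‖) * t := by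
    field_simp
  rw [h4]
  have h5 : 1 ≤ 2 * ‖a‖ / ‖α‖ := by
    rw [le_div_iff₀ hα']
    linarith
  nlinarith

/-- Outside the closed disc. -/
theorem exp_out {C : Set ℤ} (hC : (0 : ℤ) ∉ C) {H : ℕ} (hH : 1 ≤ H) {T : ℕ → Set ℤ[X]}
    (hT : ∀ n, ∀ P ∈ Sepa n H, P.leadingCoeff ∈ C → P ∈ T n) {z : ℂ} (hz : z⁻¹ ∈ Dbl C H) :
    ExpAt T z := by
  obtain ⟨hz1, c, hc, hc0, hs, hd⟩ := hz
  have hc0' : c 0 ≠ 0 := fun h => hC (h ▸ hc0)
  have hz0 : z⁻¹ ≠ 0 := by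
    intro h
    rw [h] at hs
    unfold ser at hs
    rw [tsum_eq_single 0 (fun i hi => by rw [zero_pow hi, mul_zero]), pow_zero, mul_one,
      Int.cast_eq_zero] at hs
    exact hc0' hs
  obtain ⟨l, hl0, hl1, p, hp, hev⟩ := near_aux hH hz1 hc hc0' hs hd
  refine ⟨l, hl0, hl1, ?_⟩
  have hnz : 0 < ‖z⁻¹‖ := norm_pos_iff.2 hz0
  have hev2 := (tendsto_sub_atTop_nat 1).eventually hev
  have hpow : Tendsto (fun n : ℕ => l ^ n) atTop (𝓝 0) :=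
    tendsto_pow_atTop_nhds_zero_of_lt_one hl0.le hl1
  have hs1 : ∀ᶠ n : ℕ in atTop, l ^ n < ‖z⁻¹‖ / 2 := hpow.eventually (gt_mem_nhds (by linarith))
  have hs2 : ∀ᶠ n : ℕ in atTop, l ^ n < l ^ 2 / (2 / ‖z⁻¹‖ ^ 2) :=
    hpow.eventually (gt_mem_nhds (by positivity))
  -- the reversed polynomials
  have hrev : ∀ n k : ℕ, 2 ≤ n → k ≤ 1 → l ^ n < ‖z⁻¹‖ / 2 → l ^ n < l ^ 2 / (2 / ‖z⁻¹‖ ^ 2) →
      (∃ P ∈ SepaMon (n - k) H, P.coeff 0 = c 0 ∧ ∃ a b : ℂ, aeval a P = 0 ∧ aeval b P = 0 ∧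
        a ≠ b ∧ ‖a - z⁻¹‖ < l ^ (2 * (n - k)) ∧ ‖b - z⁻¹‖ < l ^ (2 * (n - k))) →
      ∃ P ∈ Sepa (n - k) H, P.coeff 0 ≠ 0 ∧ P.leadingCoeff = c 0 ∧ ∃ a b : ℂ, aeval a P = 0 ∧
        aeval b P = 0 ∧ a ≠ b ∧ ‖a - z‖ ≤ l ^ n ∧ ‖b - z‖ ≤ l ^ n := by
    rintro n k hn hk hl2 hl3 ⟨P, hP, hPc, a, b, ha, hb, hab, haz, hbz⟩
    obtain ⟨hR1, hR2, hR3⟩ := rev_mem (by omega) hP.1 (by rw [hPc]; exact hc0')
    obtain ⟨ha0, ha1⟩ := hR3 a ha
    obtain ⟨hb0, hb1⟩ := hR3 b hb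
    have e1 : l ^ (2 * (n - k)) ≤ l ^ n * (l ^ n / l ^ 2) := by
      have e2 : l ^ n * (l ^ n / l ^ 2) = l ^ (2 * n - 2) := by
        rw [← mul_div_assoc, ← pow_add, eq_comm, eq_div_iff (by positivity), ← pow_add]
        congr 1
        omega
      rw [e2]
      exact pow_le_pow_of_le_one hl0.le hl1.le (by omega)
    have e3 : l ^ (2 * (n - k)) ≤ ‖z⁻¹‖ / 2 := by
      refine le_trans ?_ hl2.le
      exact pow_le_pow_of_le_one hl0.le hl1.le (by omega)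
    have e4 : 2 / ‖z⁻¹‖ ^ 2 * l ^ (2 * (n - k)) ≤ l ^ n := by
      have e5 : 0 < 2 / ‖z⁻¹‖ ^ 2 := by positivity
      rw [lt_div_iff₀ e5] at hl3
      have e6 : 2 / ‖z⁻¹‖ ^ 2 * (l ^ n / l ^ 2) ≤ 1 := by
        rw [mul_div_assoc', div_le_one (by positivity)]
        linarith
      calc 2 / ‖z⁻¹‖ ^ 2 * l ^ (2 * (n - k)) ≤ 2 / ‖z⁻¹‖ ^ 2 * (l ^ n * (l ^ n / l ^ 2)) := by
            gcongr
        _ = (2 / ‖z⁻¹‖ ^ 2 * (l ^ n / l ^ 2)) * l ^ n := by ring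
        _ ≤ 1 * l ^ n := by gcongr
        _ = l ^ n := one_mul _
    refine ⟨P.reverse, hR1, coeff_rev_zero hP.1.1 (by omega), by rw [hR2, hPc], a⁻¹, b⁻¹, ha1, hb1,
      fun h => hab (inv_injective h), ?_, ?_⟩
    · have h5 := (inv_near hz0 ha0 haz e3).trans e4
      rwa [inv_inv] at h5
    · have h5 := (inv_near hz0 hb0 hbz e3).trans e4
      rwa [inv_inv] at h5
  filter_upwards [hev, hev2, eventually_ge_atTop 2, hs1, hs2] with n hn1 hn2 hn hl2 hl3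
  by_cases hpn : p ∣ n
  · have hpn' : ¬ p ∣ n - 1 := by
      intro h
      have h2 := (Nat.dvd_sub hpn h)
      have h3 : n - (n - 1) = 1 := by omega
      rw [h3] at h2
      have := Nat.le_of_dvd one_pos h2
      omega
    obtain ⟨P, hP, hP0, hPl, a, b, ha, hb, hab, haz, hbz⟩ :=
      hrev n 1 hn le_rfl hl2 hl3 (hn2 hpn')
    obtain ⟨hX1, hX2, hX3⟩ := X_mul_mem (by omega) hP hP0
    have h4 : n - 1 + 1 = n := by omega
    rw [h4] at hX1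
    exact ⟨X * P, hT n _ hX1 (by rw [hX2, hPl]; exact hc0), a, b, hX3 a ha, hX3 b hb, hab, haz,
      hbz⟩
  · obtain ⟨P, hP, hP0, hPl, a, b, ha, hb, hab, haz, hbz⟩ :=
      hrev n 0 hn zero_le_one hl2 hl3 (hn1 hpn)
    exact ⟨P, hT n _ hP (by rw [hPl]; exact hc0), a, b, ha, hb, hab, haz, hbz⟩

end Pool.Agent.Helper41.DZ
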