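import Pool.Agent.Helper41.DZ.Near

/-!
# MP_418077_nt, close pairs of roots inside the unit disc: many double zeros by the pigeonhole
principle
-/

set_option autoImplicit false

namespace Pool.Agent.Helper41.DZ

open Polynomial Filter Topology
open Pool.Agent.Helper41.RS

/-- The pigeonhole principle. -/
lemma pigeon {H d k N : ℕ} (hH : 1 ≤ H) (hN : d * k < N) (φ : Fin d → (Fin N → Fin (H + 1)) → ℝ)
    {M : ℝ} (hφ : ∀ j x, |φ j x| < M) :
    ∃ x y : Fin N → Fin (H + 1), x ≠ y ∧ ∀ j, |φ j x - φ j y| ≤ 2 * M / ((H : ℝ) + 1) ^ k := by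
  classical
  rcases Nat.eq_zero_or_pos d with rfl | hd
  · obtain ⟨x, y, hxy, -⟩ := Fintype.exists_ne_map_eq_of_card_lt
      (fun _ : Fin N → Fin (H + 1) => (0 : Fin 1)) (by
        rw [Fintype.card_fin, Fintype.card_fun, Fintype.card_fin, Fintype.card_fin]
        exact Nat.one_lt_pow (by omega) (by omega))
    exact ⟨x, y, hxy, fun j => j.elim0⟩
  · obtain ⟨x₀⟩ : Nonempty (Fin N → Fin (H + 1)) := ⟨fun _ => 0⟩
    have hM : 0 < M := (abs_nonneg _).trans_lt (hφ ⟨0, hd⟩ x₀)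
    obtain ⟨L, hL⟩ : ∃ L : ℕ, L = (H + 1) ^ k := ⟨_, rfl⟩
    have hL0 : 0 < L := by rw [hL]; positivity
    have hL0' : (0 : ℝ) < L := by exact_mod_cast hL0
    obtain ⟨t, ht⟩ : ∃ t : Fin d → (Fin N → Fin (H + 1)) → ℝ,
        ∀ j x, t j x = (φ j x + M) / (2 * M) * L := ⟨_, fun j x => rfl⟩
    have ht0 : ∀ j x, 0 ≤ t j x := by
      intro j x
      rw [ht]
      have := (abs_lt.1 (hφ j x)).1
      have h1 : 0 ≤ φ j x + M := by linarith
      positivity
    have ht1 : ∀ j x, t j x < L := by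
      intro j x
      rw [ht]
      have := (abs_lt.1 (hφ j x)).2
      have h1 : (φ j x + M) / (2 * M) < 1 := by
        rw [div_lt_one (by positivity)]
        linarith
      calc (φ j x + M) / (2 * M) * L < 1 * L := by gcongr
        _ = L := one_mul _
    obtain ⟨x, y, hxy, he⟩ := Fintype.exists_ne_map_eq_of_card_lt
      (fun (x : Fin N → Fin (H + 1)) (j : Fin d) =>
        (⟨⌊t j x⌋₊, (Nat.floor_lt (ht0 j x)).2 (ht1 j x)⟩ : Fin L)) (by
        rw [Fintype.card_fun, Fintype.card_fun, Fintype.card_fin, Fintype.card_fin,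
          Fintype.card_fin, Fintype.card_fin, hL, ← pow_mul]
        refine Nat.pow_lt_pow_right (by omega) ?_
        rwa [mul_comm])
    refine ⟨x, y, hxy, fun j => ?_⟩
    have h1 : ⌊t j x⌋₊ = ⌊t j y⌋₊ := congrArg Fin.val (congrFun he j)
    have e1 := Nat.floor_le (ht0 j x)
    have e2 := Nat.floor_le (ht0 j y)
    have e3 := Nat.lt_floor_add_one (t j x)
    have e4 := Nat.lt_floor_add_one (t j y)
    rw [h1] at e1 e3
    have h2 : |t j x - t j y| ≤ 1 := by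
      rw [abs_le]
      constructor <;> linarith
    have h3 : φ j x - φ j y = (t j x - t j y) * (2 * M / L) := by
      rw [ht, ht]
      field_simp
      ring
    have h4 : ((L : ℕ) : ℝ) = ((H : ℝ) + 1) ^ k := by
      rw [hL]
      push_cast
      ring
    rw [h3, abs_mul, h4, abs_of_nonneg (by positivity : 0 ≤ 2 * M / ((H : ℝ) + 1) ^ k)]
    calc |t j x - t j y| * (2 * M / ((H : ℝ) + 1) ^ k) ≤ 1 * (2 * M / ((H : ℝ) + 1) ^ k) := by
          gcongr
      _ = 2 * M / ((H : ℝ) + 1) ^ k := one_mul _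

/-- A factorisation. -/
lemma strip {D : ℤ[X]} (hD : D ≠ 0) : ∃ (j : ℕ) (E : ℤ[X]), D = X ^ j * E ∧ E.coeff 0 ≠ 0 := by
  obtain ⟨q, h1, h2⟩ := exists_eq_pow_rootMultiplicity_mul_and_not_dvd D hD 0
  rw [C_0, sub_zero] at h1 h2
  exact ⟨_, q, h1, fun h => h2 (X_dvd_iff.2 h)⟩

/-- Bounds for values. -/
lemma exists_bound (H : ℕ) {z : ℂ} (hz : ‖z‖ < 1) : ∃ M : ℝ, 0 < M ∧ ∀ Q : ℤ[X],
    (∀ i, (Q.coeff i).natAbs ≤ H) → ‖aeval z Q‖ + ‖aeval z (derivative Q)‖ < M := by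
  have h1 := (summable_geometric_of_lt_one (norm_nonneg z) hz).mul_left (H : ℝ)
  have h2 := (summable_der (norm_nonneg z) hz).mul_left (H : ℝ)
  obtain ⟨A, hA⟩ := h1
  obtain ⟨B, hB⟩ := h2
  have hA0 : 0 ≤ A := hA.nonneg fun i => by positivity
  have hB0 : 0 ≤ B := hB.nonneg fun i => by positivity
  refine ⟨A + B + 1, by positivity, fun Q hQ => ?_⟩
  have e1 : ‖aeval z Q‖ ≤ A := by
    rw [← ser_coeff]
    unfold ser
    refine tsum_of_norm_bounded hA fun i => ?_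
    rw [norm_mul, norm_pow]
    have := norm_coeff_le (hQ i)
    gcongr
  have e2 : ‖aeval z (derivative Q)‖ ≤ B := by
    rw [← der_coeff]
    unfold der
    refine tsum_of_norm_bounded hB fun i => ?_
    rw [norm_mul, norm_mul, norm_pow, Complex.norm_natCast]
    have := norm_coeff_le (hQ i)
    gcongr
  linarith

/-- Polynomials with small values. -/
theorem exists_small {H d : ℕ} (hH : 1 ≤ H) {z : ℂ} (hz : ‖z‖ < 1) (ψ : Fin d → ℤ[X] → ℝ)
    (h1 : ∀ j P, |ψ j P| ≤ ‖aeval z P‖ + ‖aeval z (derivative P)‖)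
    (h2 : ∀ j P Q, ψ j (P - Q) = ψ j P - ψ j Q)
    (h3 : ∀ P s, (∀ j, |ψ j P| ≤ s) → ‖aeval z P‖ ≤ 2 * s ∧ ‖aeval z (derivative P)‖ ≤ 2 * s) :
    ∃ M : ℝ, 0 < M ∧ ∀ k : ℕ, ∃ D : ℤ[X], D ≠ 0 ∧ D.natDegree ≤ d * k ∧
      (∀ i, (D.coeff i).natAbs ≤ H) ∧ ‖aeval z D‖ ≤ M / ((H : ℝ) + 1) ^ k ∧
      ‖aeval z (derivative D)‖ ≤ M / ((H : ℝ) + 1) ^ k := by
  obtain ⟨M, hM, hb⟩ := exists_bound H hz
  refine ⟨4 * M, by positivity, fun k => ?_⟩
  obtain ⟨P, hP⟩ : ∃ P : (Fin (d * k + 1) → Fin (H + 1)) → ℤ[X], ∀ x, P x =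
      polOf (fun i => if h : i < d * k + 1 then ((x ⟨i, h⟩ : ℕ) : ℤ) else 0) (d * k + 1) :=
    ⟨_, fun x => rfl⟩
  have hPc : ∀ x i, (P x).coeff i =
      if h : i < d * k + 1 then ((x ⟨i, h⟩ : ℕ) : ℤ) else 0 := by
    intro x i
    rw [hP, coeff_polOf]
    by_cases h : i < d * k + 1
    · rw [if_pos h]
    · rw [if_neg h, dif_neg h]
  have hPH : ∀ x i, ((P x).coeff i).natAbs ≤ H := by
    intro x i
    rw [hPc]
    split_ifs with h
    · rw [Int.natAbs_natCast]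
      exact Nat.lt_succ_iff.1 (x ⟨i, h⟩).2
    · simp
  obtain ⟨x, y, hxy, hxy2⟩ := pigeon hH (Nat.lt_succ_self (d * k)) (fun j x => ψ j (P x))
    (fun j x => (h1 j _).trans_lt (hb _ (hPH x)))
  have hDc : ∀ i, (P x - P y).coeff i =
      if h : i < d * k + 1 then ((x ⟨i, h⟩ : ℕ) : ℤ) - ((y ⟨i, h⟩ : ℕ) : ℤ) else 0 := by
    intro i
    rw [coeff_sub, hPc, hPc]
    split_ifs <;> simp
  obtain ⟨e1, e2⟩ := h3 (P x - P y) (2 * M / ((H : ℝ) + 1) ^ k) (fun j => by
    rw [h2]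
    exact hxy2 j)
  refine ⟨P x - P y, ?_, ?_, ?_, ?_, ?_⟩
  · intro h
    refine hxy (funext fun i => Fin.ext ?_)
    have h4 := hDc i
    rw [h, coeff_zero, dif_pos i.2] at h4
    have h5 : ((x i : ℕ) : ℤ) - ((y i : ℕ) : ℤ) = 0 := h4.symm
    omega
  · refine natDegree_le_iff_coeff_eq_zero.2 fun i hi => ?_
    rw [hDc, dif_neg (by omega)]
  · intro i
    rw [hDc]
    split_ifs with h
    · have h4 := (x ⟨i, h⟩).2
      have h5 := (y ⟨i, h⟩).2
      omega
    · simp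
  · refine e1.trans (le_of_eq ?_)
    ring
  · refine e2.trans (le_of_eq ?_)
    ring

/-- All points with large modulus are double zeros: general version. -/
theorem mem_aux {H d : ℕ} (hH : 1 ≤ H) {z : ℂ} (hz : ‖z‖ < 1) (hz0 : z ≠ 0)
    (hd : 1 < ((H : ℝ) + 1) * ‖z‖ ^ d) (ψ : Fin d → ℤ[X] → ℝ)
    (h1 : ∀ j P, |ψ j P| ≤ ‖aeval z P‖ + ‖aeval z (derivative P)‖)
    (h2 : ∀ j P Q, ψ j (P - Q) = ψ j P - ψ j Q)
    (h3 : ∀ P s, (∀ j, |ψ j P| ≤ s) → ‖aeval z P‖ ≤ 2 * s ∧ ‖aeval z (derivative P)‖ ≤ 2 * s) :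
    z ∈ Dbl {0}ᶜ H := by
  obtain ⟨M, hM, hD⟩ := exists_small hH hz ψ h1 h2 h3
  have hzn : 0 < ‖z‖ := norm_pos_iff.2 hz0
  obtain ⟨t, ht⟩ : ∃ t : ℝ, t = (((H : ℝ) + 1) * ‖z‖ ^ d)⁻¹ := ⟨_, rfl⟩
  have ht0 : 0 ≤ t := by rw [ht]; positivity
  have ht1 : t < 1 := by
    rw [ht]
    exact inv_lt_one_of_one_lt₀ hd
  have hkey : ∀ k : ℕ, ∃ E : ℤ[X], (∀ i, (E.coeff i).natAbs ≤ H) ∧ E.coeff 0 ≠ 0 ∧
      ‖aeval z E‖ ≤ M / ‖z‖ * (((d * k : ℕ) : ℝ) + 1) * t ^ k ∧
      ‖aeval z (derivative E)‖ ≤ M / ‖z‖ * (((d * k : ℕ) : ℝ) + 1) * t ^ k := by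
    intro k
    obtain ⟨D, hD0, hDd, hDH, hDz, hDz'⟩ := hD k
    obtain ⟨j, E, hDE, hE0⟩ := strip hD0
    have hEne : E ≠ 0 := by
      rintro rfl
      exact hE0 (coeff_zero _)
    have hj : j ≤ d * k := by
      rw [hDE, natDegree_mul (pow_ne_zero _ X_ne_zero) hEne, natDegree_X_pow] at hDd
      omega
    have hEH : ∀ i, (E.coeff i).natAbs ≤ H := by
      intro i
      have h4 := hDH (i + j)
      rwa [hDE, coeff_X_pow_mul] at h4
    have e1 : z ^ j * aeval z E = aeval z D := by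
      rw [hDE, map_mul, map_pow, aeval_X]
    have e2 : z ^ (j + 1) * aeval z (derivative E) =
        z * aeval z (derivative D) - j * aeval z D := by
      have hXj : aeval z (derivative (X ^ j : ℤ[X])) * z = j * z ^ j := by
        rw [derivative_X_pow, map_mul, map_pow, aeval_X, mul_assoc]
        rcases j with _ | j
        · simp
        · rw [Nat.add_sub_cancel, ← pow_succ]
          simp
      have hXp : aeval z (X ^ j : ℤ[X]) = z ^ j := by rw [map_pow, aeval_X]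
      rw [hDE, derivative_mul, map_add, map_mul, map_mul, map_mul, hXp, pow_succ]
      linear_combination (-aeval z E) * hXj
    have hpw : M / ((H : ℝ) + 1) ^ k = M * t ^ k * ‖z‖ ^ (d * k) := by
      rw [ht, inv_pow, mul_pow, ← pow_mul]
      have e3 : ‖z‖ ^ (d * k) ≠ 0 := (pow_pos hzn _).ne'
      field_simp
    rw [hpw] at hDz hDz'
    have hzj : ‖z‖ ^ (d * k) ≤ ‖z‖ ^ j := pow_le_pow_of_le_one hzn.le hz.le hj
    have hzj0 : 0 < ‖z‖ ^ j := pow_pos hzn _
    have htk : 0 ≤ t ^ k := by positivity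
    have hkd : (0 : ℝ) ≤ ((d * k : ℕ) : ℝ) := Nat.cast_nonneg _
    refine ⟨E, hEH, hE0, ?_, ?_⟩
    · have e4 : ‖z‖ ^ j * ‖aeval z E‖ ≤ ‖z‖ ^ j * (M * t ^ k) := by
        rw [← norm_pow, ← norm_mul, e1, norm_pow]
        calc ‖aeval z D‖ ≤ M * t ^ k * ‖z‖ ^ (d * k) := hDz
          _ ≤ M * t ^ k * ‖z‖ ^ j := by gcongr
          _ = ‖z‖ ^ j * (M * t ^ k) := by ring
      have e5 := le_of_mul_le_mul_left e4 hzj0
      refine e5.trans ?_
      have e6 : M ≤ M / ‖z‖ := by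
        rw [le_div_iff₀ hzn]
        nlinarith
      have e7 : M ≤ M / ‖z‖ * (((d * k : ℕ) : ℝ) + 1) := by
        have : 0 < M / ‖z‖ := by positivity
        nlinarith
      gcongr
    · have e4 : ‖z‖ ^ (j + 1) * ‖aeval z (derivative E)‖ ≤
          ‖z‖ ^ (j + 1) * (M / ‖z‖ * (((d * k : ℕ) : ℝ) + 1) * t ^ k) := by
        rw [← norm_pow, ← norm_mul, e2, norm_pow]
        have e8 : ‖z * aeval z (derivative D) - j * aeval z D‖ ≤
            (((d * k : ℕ) : ℝ) + 1) * (M * t ^ k * ‖z‖ ^ (d * k)) := by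
          refine (norm_sub_le _ _).trans ?_
          rw [norm_mul, norm_mul, Complex.norm_natCast]
          have hjk : (j : ℝ) ≤ ((d * k : ℕ) : ℝ) := by exact_mod_cast hj
          calc ‖z‖ * ‖aeval z (derivative D)‖ + j * ‖aeval z D‖ ≤
              1 * (M * t ^ k * ‖z‖ ^ (d * k)) +
                ((d * k : ℕ) : ℝ) * (M * t ^ k * ‖z‖ ^ (d * k)) := by gcongr
            _ = (((d * k : ℕ) : ℝ) + 1) * (M * t ^ k * ‖z‖ ^ (d * k)) := by ring
        refine e8.trans ?_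
        calc (((d * k : ℕ) : ℝ) + 1) * (M * t ^ k * ‖z‖ ^ (d * k)) ≤
            (((d * k : ℕ) : ℝ) + 1) * (M * t ^ k * ‖z‖ ^ j) := by gcongr
          _ = ‖z‖ ^ (j + 1) * (M / ‖z‖ * (((d * k : ℕ) : ℝ) + 1) * t ^ k) := by
            rw [pow_succ]
            field_simp
      exact le_of_mul_le_mul_left e4 (by positivity)
  choose E hEH hE0 hE1 hE2 using hkey
  have hlim : Tendsto (fun k : ℕ => M / ‖z‖ * (((d * k : ℕ) : ℝ) + 1) * t ^ k) (hyperfilter ℕ)
      (𝓝 0) := by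
    refine Tendsto.mono_left ?_ Nat.hyperfilter_le_atTop
    have l1 := (tendsto_self_mul_const_pow_of_lt_one ht0 ht1).const_mul (M / ‖z‖ * d)
    have l2 := (tendsto_pow_atTop_nhds_zero_of_lt_one ht0 ht1).const_mul (M / ‖z‖)
    have l3 := l1.add l2
    rw [mul_zero, mul_zero, add_zero] at l3
    refine l3.congr fun k => ?_
    push_cast
    ring
  refine limit_mem (hyperfilter ℕ) hz (fun _ => z) (fun _ => z) (fun k => (E k).coeff) hEH hE0
    tendsto_const_nhds tendsto_const_nhds ?_ ?_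
  · refine squeeze_zero_norm (fun k => ?_) hlim
    rw [ser_coeff]
    exact hE1 k
  · refine squeeze_zero_norm (fun k => ?_) hlim
    have e1 : ∑' i, ((E k).coeff i : ℂ) * dd z z i = der (E k).coeff z := by
      unfold der
      simp only [dd_self]
    rw [e1, der_coeff]
    exact hE2 k

/-- The annulus. -/
theorem mem_annulus {H : ℕ} (hH : 1 ≤ H) {z : ℂ} (hz : ‖z‖ < 1)
    (hd : 1 < ((H : ℝ) + 1) * ‖z‖ ^ 4) : z ∈ Dbl {0}ᶜ H := by
  have hz0 : z ≠ 0 := by
    rintro rfl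
    rw [norm_zero] at hd
    norm_num at hd
  refine mem_aux hH hz hz0 hd (fun j P => ![(aeval z P).re, (aeval z P).im,
    (aeval z (derivative P)).re, (aeval z (derivative P)).im] j) ?_ ?_ ?_
  · intro j P
    have n1 := norm_nonneg (aeval z P)
    have n2 := norm_nonneg (aeval z (derivative P))
    have e1 := Complex.abs_re_le_norm (aeval z P)
    have e2 := Complex.abs_im_le_norm (aeval z P)
    have e3 := Complex.abs_re_le_norm (aeval z (derivative P))
    have e4 := Complex.abs_im_le_norm (aeval z (derivative P))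
    fin_cases j <;> simp <;> linarith
  · intro j P Q
    fin_cases j <;> simp
  · intro P s hs
    have e1 := hs 0
    have e2 := hs 1
    have e3 := hs 2
    have e4 := hs 3
    simp at e1 e2 e3 e4
    have f1 := Complex.norm_le_abs_re_add_abs_im (aeval z P)
    have f2 := Complex.norm_le_abs_re_add_abs_im (aeval z (derivative P))
    constructor <;> linarith

/-- The values at real points are real. -/
lemma aeval_im (x : ℝ) (P : ℤ[X]) : (aeval (x : ℂ) P).im = 0 := by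
  have h : aeval (x : ℂ) P = ((aeval x P : ℝ) : ℂ) := by
    rw [← Complex.coe_algebraMap, aeval_algebraMap_apply]
  rw [h, Complex.ofReal_im]

/-- The real points. -/
theorem mem_real {H : ℕ} (hH : 1 ≤ H) {x : ℝ} (hx : |x| < 1)
    (hd : 1 < ((H : ℝ) + 1) * x ^ 2) : (x : ℂ) ∈ Dbl {0}ᶜ H := by
  have hx0 : (x : ℂ) ≠ 0 := by
    intro h
    rw [Complex.ofReal_eq_zero] at h
    rw [h] at hd
    norm_num at hd
  have hn : ‖(x : ℂ)‖ = |x| := by rw [Complex.norm_real, Real.norm_eq_abs]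
  refine mem_aux (d := 2) hH (by rw [hn]; exact hx) hx0 (by rw [hn, sq_abs]; exact hd)
    (fun j P => ![(aeval (x : ℂ) P).re, (aeval (x : ℂ) (derivative P)).re] j) ?_ ?_ ?_
  · intro j P
    have n1 := norm_nonneg (aeval (x : ℂ) P)
    have n2 := norm_nonneg (aeval (x : ℂ) (derivative P))
    have e1 := Complex.abs_re_le_norm (aeval (x : ℂ) P)
    have e3 := Complex.abs_re_le_norm (aeval (x : ℂ) (derivative P))
    fin_cases j <;> simp <;> linarith
  · intro j P Q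
    fin_cases j <;> simp
  · intro P s hs
    have e1 := hs 0
    have e2 := hs 1
    simp at e1 e2
    have f1 := Complex.norm_le_abs_re_add_abs_im (aeval (x : ℂ) P)
    have f2 := Complex.norm_le_abs_re_add_abs_im (aeval (x : ℂ) (derivative P))
    rw [aeval_im, abs_zero, add_zero] at f1 f2
    have : 0 ≤ s := (abs_nonneg _).trans e1
    constructor <;> linarith

end Pool.Agent.Helper41.DZ
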