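import Pool.Agent.Helper41.DZ.Thr

/-!
# MP_418077_nt, close pairs of roots inside the unit disc: double zeros of power series with
constant term one, by rounding
-/

set_option autoImplicit false

namespace Pool.Agent.Helper41.DZ

open Polynomial Filter Topology
open Pool.Agent.Helper41.RS

/-- the rounding sequence -/
noncomputable def rnd (a : ℕ → ℝ) : ℕ → ℝ
  | 0 => 1
  | n + 1 => round (∑ j : Fin (n + 1), a (j + 1) * rnd a (n - j)) -
      ∑ j : Fin (n + 1), a (j + 1) * rnd a (n - j)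
  decreasing_by all_goals omega

lemma abs_rnd_le (a : ℕ → ℝ) (n : ℕ) : |rnd a n| ≤ 1 := by
  rcases n with _ | n
  · rw [rnd, abs_one]
  · rw [rnd, abs_sub_comm]
    exact (abs_sub_round _).trans (by norm_num)

/-- the integer coefficients -/
noncomputable def rcf (a : ℕ → ℝ) : ℕ → ℤ
  | 0 => 1
  | n + 1 => round (∑ j : Fin (n + 1), a (j + 1) * rnd a (n - j))

lemma rcf_eq {a : ℕ → ℝ} (ha : a 0 = 1) (n : ℕ) :
    (rcf a n : ℝ) = ∑ x ∈ Finset.HasAntidiagonal.antidiagonal n, a x.1 * rnd a x.2 := by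
  rcases n with _ | n
  · simp [rcf, rnd, ha]
  · rw [Finset.Nat.sum_antidiagonal_eq_sum_range_succ (fun i j => a i * rnd a j),
      Finset.sum_range_succ', ha, one_mul, Nat.sub_zero, rcf]
    have h1 : ∑ i ∈ Finset.range (n + 1), a (i + 1) * rnd a (n + 1 - (i + 1)) =
        ∑ j : Fin (n + 1), a (j + 1) * rnd a (n - j) := by
      rw [Finset.sum_range]
      refine Finset.sum_congr rfl fun j _ => ?_
      rw [Nat.add_sub_add_right]
    rw [h1, rnd]
    ring

lemma rcf_le {a : ℕ → ℝ} {H : ℕ} (hH : 1 ≤ H)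
    (ha : ∀ n, ∑ j ∈ Finset.range n, |a (j + 1)| ≤ H) (n : ℕ) : (rcf a n).natAbs ≤ H := by
  rcases n with _ | n
  · rw [rcf]
    simpa using hH
  · rw [rcf]
    obtain ⟨S, hS⟩ : ∃ S : ℝ, S = ∑ j : Fin (n + 1), a (j + 1) * rnd a (n - j) := ⟨_, rfl⟩
    rw [← hS]
    have h1 : |S| ≤ H := by
      rw [hS]
      refine (Finset.abs_sum_le_sum_abs _ _).trans ?_
      refine le_trans ?_ (ha (n + 1))
      rw [Finset.sum_range]
      refine Finset.sum_le_sum fun j _ => ?_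
      rw [abs_mul]
      have := abs_rnd_le a (n - j)
      exact mul_le_of_le_one_right (abs_nonneg _) this
    rw [abs_le] at h1
    have h5 := abs_le.1 (abs_sub_round S)
    have h2 : round S < (H : ℤ) + 1 := by
      have h3 : ((round S : ℤ) : ℝ) < (H : ℝ) + 1 := by linarith [h5.1, h1.2]
      exact_mod_cast h3
    have h4 : -(H : ℤ) - 1 < round S := by
      have h3 : -(H : ℝ) - 1 < ((round S : ℤ) : ℝ) := by linarith [h5.2, h1.1]
      exact_mod_cast h3
    omega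

/-- The values of the power series. -/
lemma ser_rcf {q : ℝ[X]} (hq0 : (q ^ 2).coeff 0 = 1) {w : ℂ} (hw : ‖w‖ < 1) :
    ser (rcf (q ^ 2).coeff) w = (aeval w q) ^ 2 * ∑' i, ((rnd (q ^ 2).coeff i : ℝ) : ℂ) * w ^ i := by
  have s1 : Summable fun i => ‖(((q ^ 2).coeff i : ℝ) : ℂ) * w ^ i‖ := by
    refine summable_of_ne_finset_zero (s := (q ^ 2).support) fun i hi => ?_
    rw [notMem_support_iff] at hi
    rw [hi, Complex.ofReal_zero, zero_mul, norm_zero]
  have s2 : Summable fun i => ‖((rnd (q ^ 2).coeff i : ℝ) : ℂ) * w ^ i‖ := by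
    refine Summable.of_nonneg_of_le (fun i => norm_nonneg _) (fun i => ?_)
      (summable_geometric_of_lt_one (norm_nonneg w) hw)
    rw [norm_mul, norm_pow, Complex.norm_real, Real.norm_eq_abs]
    have := abs_rnd_le (q ^ 2).coeff i
    exact mul_le_of_le_one_left (by positivity) this
  have h1 := tsum_mul_tsum_eq_tsum_sum_antidiagonal_of_summable_norm s1 s2
  have h2 : ∑' i, (((q ^ 2).coeff i : ℝ) : ℂ) * w ^ i = (aeval w q) ^ 2 := by
    rw [← map_pow, aeval_eq_sum_range, tsum_eq_sum (s := Finset.range ((q ^ 2).natDegree + 1))]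
    · refine Finset.sum_congr rfl fun i _ => ?_
      rw [Complex.real_smul]
    · intro i hi
      rw [Finset.mem_range, not_lt] at hi
      rw [coeff_eq_zero_of_natDegree_lt (by omega), Complex.ofReal_zero, zero_mul]
  rw [h2] at h1
  rw [h1]
  unfold ser
  refine tsum_congr fun n => ?_
  have h3 := rcf_eq (a := (q ^ 2).coeff) hq0 n
  have h4 : ((rcf (q ^ 2).coeff n : ℤ) : ℂ) =
      ∑ x ∈ Finset.HasAntidiagonal.antidiagonal n, (((q ^ 2).coeff x.1 : ℝ) : ℂ) *
        ((rnd (q ^ 2).coeff x.2 : ℝ) : ℂ) := by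
    have h5 := congrArg (fun x : ℝ => (x : ℂ)) h3
    push_cast at h5
    exact h5
  rw [h4, Finset.sum_mul]
  refine Finset.sum_congr rfl fun x hx => ?_
  rw [Finset.HasAntidiagonal.mem_antidiagonal] at hx
  rw [← hx, pow_add]
  ring

/-- Double zeros by rounding. -/
theorem mem_round {H : ℕ} (hH : 1 ≤ H) {q : ℝ[X]} (hq0 : (q ^ 2).coeff 0 = 1)
    (hq : ∀ n, ∑ j ∈ Finset.range n, |(q ^ 2).coeff (j + 1)| ≤ H) {z : ℂ} (hz : ‖z‖ < 1)
    (hqz : aeval z q = 0) : z ∈ Dbl {1} H := by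
  obtain ⟨r, hr1, hr2⟩ := exists_between hz
  have hr0 : 0 ≤ r := (norm_nonneg _).trans hr1.le
  obtain ⟨Q, hQ⟩ : X - C z ∣ q.map (algebraMap ℝ ℂ) := by
    rw [dvd_iff_isRoot, IsRoot.def, eval_map_algebraMap]
    exact hqz
  have hqw : ∀ w : ℂ, aeval w q = (w - z) * Q.eval w := by
    intro w
    rw [← eval_map_algebraMap, hQ, eval_mul, eval_sub, eval_X, eval_C]
  obtain ⟨w, hw⟩ : ∃ w : ℕ → ℂ, ∀ k, w k = z + ((r - ‖z‖ : ℝ) : ℂ) * ((1 / ((k : ℝ) + 1) : ℝ)) :=
    ⟨_, fun k => rfl⟩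
  have hwz : ∀ k, ‖w k - z‖ = (r - ‖z‖) * (1 / ((k : ℝ) + 1)) := by
    intro k
    rw [hw, add_sub_cancel_left, norm_mul, Complex.norm_real, Complex.norm_real,
      Real.norm_of_nonneg (by linarith), Real.norm_of_nonneg (by positivity)]
  have hwne : ∀ k, w k ≠ z := by
    intro k h
    have h1 := hwz k
    rw [h, sub_self, norm_zero] at h1
    have h2 : 0 < (r - ‖z‖) * (1 / ((k : ℝ) + 1)) := by
      have : 0 < r - ‖z‖ := by linarith
      positivity
    linarith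
  have hwr : ∀ k, ‖w k‖ ≤ r := by
    intro k
    have h1 : w k = z + (w k - z) := by ring
    have h2 := norm_add_le z (w k - z)
    rw [← h1, hwz] at h2
    have h3 : (1 : ℝ) / ((k : ℝ) + 1) ≤ 1 := by
      rw [div_le_one (by positivity)]
      linarith [Nat.cast_nonneg (α := ℝ) k]
    have h4 : (r - ‖z‖) * (1 / ((k : ℝ) + 1)) ≤ (r - ‖z‖) * 1 := by
      have : 0 ≤ r - ‖z‖ := by linarith
      gcongr
    linarith
  have hwt : Tendsto w atTop (𝓝 z) := by
    rw [tendsto_iff_norm_sub_tendsto_zero]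
    have h1 := (tendsto_one_div_add_atTop_nhds_zero_nat (𝕜 := ℝ)).const_mul (r - ‖z‖)
    rw [mul_zero] at h1
    refine h1.congr fun k => ?_
    rw [hwz]
  have hG : ∀ v : ℂ, ‖v‖ ≤ r →
      ‖∑' i, ((rnd (q ^ 2).coeff i : ℝ) : ℂ) * v ^ i‖ ≤ (1 - r)⁻¹ := by
    intro v hv
    refine tsum_of_norm_bounded (hasSum_geometric_of_lt_one hr0 hr2) fun i => ?_
    rw [norm_mul, norm_pow, Complex.norm_real, Real.norm_eq_abs]
    have e1 := abs_rnd_le (q ^ 2).coeff i
    calc |rnd (q ^ 2).coeff i| * ‖v‖ ^ i ≤ 1 * r ^ i := by gcongr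
      _ = r ^ i := one_mul _
  have hsz : ser (rcf (q ^ 2).coeff) z = 0 := by
    rw [ser_rcf hq0 hz, hqz]
    ring
  -- the difference quotients
  have hkey : Tendsto (fun k => (w k - z) * (Q.eval (w k)) ^ 2 *
      ∑' i, ((rnd (q ^ 2).coeff i : ℝ) : ℂ) * (w k) ^ i) atTop (𝓝 0) := by
    have h1 : Tendsto (fun k => (w k - z) * (Q.eval (w k)) ^ 2) atTop (𝓝 0) := by
      have h2 : Tendsto (fun k => Q.eval (w k)) atTop (𝓝 (Q.eval z)) :=
        (Q.continuous.tendsto z).comp hwt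
      have h3 := (hwt.sub_const z).mul (h2.pow 2)
      rwa [sub_self, zero_mul] at h3
    refine squeeze_zero_norm (a := fun k => ‖(w k - z) * (Q.eval (w k)) ^ 2‖ * (1 - r)⁻¹)
      (fun k => ?_) ?_
    · rw [norm_mul]
      have := hG (w k) (hwr k)
      gcongr
    · have h4 := h1.norm.mul_const ((1 - r)⁻¹)
      rwa [norm_zero, zero_mul] at h4
  have hser : ∀ k, ser (rcf (q ^ 2).coeff) (w k) = (w k - z) * ((w k - z) * (Q.eval (w k)) ^ 2 *
      ∑' i, ((rnd (q ^ 2).coeff i : ℝ) : ℂ) * (w k) ^ i) := by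
    intro k
    rw [ser_rcf hq0 ((hwr k).trans_lt hr2), hqw]
    ring
  have hcH := rcf_le hH hq
  have hsum : ∀ v : ℂ, ‖v‖ < 1 → Summable fun i => ((rcf (q ^ 2).coeff i : ℤ) : ℂ) * v ^ i := by
    intro v hv
    refine Summable.of_norm_bounded
      ((summable_geometric_of_lt_one (norm_nonneg v) hv).mul_left (H : ℝ)) fun i => ?_
    rw [norm_mul, norm_pow]
    have := norm_coeff_le (hcH i)
    gcongr
  have hdd : ∀ k, ∑' i, ((rcf (q ^ 2).coeff i : ℤ) : ℂ) * dd (w k) z i =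
      (w k - z) * (Q.eval (w k)) ^ 2 * ∑' i, ((rnd (q ^ 2).coeff i : ℝ) : ℂ) * (w k) ^ i := by
    intro k
    have h1 : (∑' i, ((rcf (q ^ 2).coeff i : ℤ) : ℂ) * dd (w k) z i) * (w k - z) =
        ser (rcf (q ^ 2).coeff) (w k) - ser (rcf (q ^ 2).coeff) z := by
      unfold ser
      rw [← (hsum _ ((hwr k).trans_lt hr2)).tsum_sub (hsum _ hz), ← tsum_mul_right]
      refine tsum_congr fun i => ?_
      rw [mul_assoc, dd_mul, mul_sub]
    rw [hser, hsz, sub_zero, mul_comm (w k - z)] at h1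
    exact mul_right_cancel₀ (sub_ne_zero.2 (hwne k)) h1
  refine limit_mem (hyperfilter ℕ) hz w (fun _ => z) (fun _ => rcf (q ^ 2).coeff) (fun _ => hcH)
    (fun _ => by simp [rcf]) (hwt.mono_left Nat.hyperfilter_le_atTop) tendsto_const_nhds ?_ ?_
  · refine Tendsto.mono_left ?_ Nat.hyperfilter_le_atTop
    have h1 := (hwt.sub_const z).mul hkey
    rw [mul_zero] at h1
    refine h1.congr fun k => ?_
    rw [hser]
  · refine Tendsto.mono_left ?_ Nat.hyperfilter_le_atTop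
    refine hkey.congr fun k => ?_
    rw [hdd]

lemma sum_coeff_le {p : ℝ[X]} {d : ℕ} (hd : p.natDegree ≤ d) (n : ℕ) :
    ∑ j ∈ Finset.range n, |p.coeff (j + 1)| ≤ ∑ j ∈ Finset.range d, |p.coeff (j + 1)| := by
  rcases le_total n d with h | h
  · exact Finset.sum_le_sum_of_subset_of_nonneg
      (Finset.range_subset_range.2 h) fun _ _ _ => abs_nonneg _
  · refine le_of_eq ?_
    symm
    refine Finset.sum_subset (Finset.range_subset_range.2 h) fun j _ hj => ?_
    rw [Finset.mem_range, not_lt] at hj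
    rw [coeff_eq_zero_of_natDegree_lt (by omega), abs_zero]

/-- The real case. -/
theorem round_real {H : ℕ} {x : ℝ} (hx1 : 1 < |x|) (hx2 : (1 + |x|) ^ 2 ≤ (H : ℝ) + 1) :
    ((x : ℂ))⁻¹ ∈ Dbl {1} H := by
  have hH : 1 ≤ H := by
    by_contra h
    have h1 : H = 0 := by omega
    rw [h1] at hx2
    push_cast at hx2
    nlinarith
  have hx0 : x ≠ 0 := by
    rintro rfl
    rw [abs_zero] at hx1
    linarith
  have hsq : ((1 - C x * X : ℝ[X]) ^ 2) = C 1 + C (-2 * x) * X + C (x ^ 2) * X ^ 2 := by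
    simp only [C_mul, C_pow, C_neg, map_ofNat, C_1]
    ring
  have hc : ∀ i, ((1 - C x * X : ℝ[X]) ^ 2).coeff i =
      (if i = 0 then 1 else 0) + (if i = 1 then -2 * x else 0) + (if i = 2 then x ^ 2 else 0) := by
    intro i
    rw [hsq, coeff_add, coeff_add, coeff_C, coeff_C_mul_X, coeff_C_mul_X_pow]
  have hdeg : ((1 - C x * X : ℝ[X]) ^ 2).natDegree ≤ 2 := by
    refine natDegree_le_iff_coeff_eq_zero.2 fun i hi => ?_
    rw [hc, if_neg (by omega), if_neg (by omega), if_neg (by omega)]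
    simp
  refine mem_round (q := 1 - C x * X) hH ?_ (fun n => ?_) ?_ ?_
  · rw [hc]
    norm_num
  · refine (sum_coeff_le hdeg n).trans ?_
    rw [Finset.sum_range_succ, Finset.sum_range_succ, Finset.sum_range_zero, hc, hc]
    norm_num
    nlinarith [sq_abs x]
  · rw [norm_inv, Complex.norm_real, Real.norm_eq_abs]
    exact inv_lt_one_of_one_lt₀ hx1
  · rw [map_sub, map_one, map_mul, aeval_C, aeval_X]
    have : (x : ℂ) ≠ 0 := Complex.ofReal_ne_zero.2 hx0
    change 1 - (x : ℂ) * (x : ℂ)⁻¹ = 0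
    rw [mul_inv_cancel₀ this, sub_self]

/-- The general case. -/
theorem round_cpx {H : ℕ} {z : ℂ} (hz1 : 1 < ‖z‖) (hz2 : (1 + ‖z‖) ^ 4 ≤ (H : ℝ) + 1) :
    z⁻¹ ∈ Dbl {1} H := by
  have hH : 1 ≤ H := by
    by_contra h
    have h1 : H = 0 := by omega
    rw [h1] at hz2
    push_cast at hz2
    have h2 : (1 : ℝ) < (1 + ‖z‖) ^ 4 := one_lt_pow₀ (by linarith) (by norm_num)
    linarith
  have hz0 : z ≠ 0 := norm_pos_iff.1 (by linarith)
  obtain ⟨t, ht⟩ : ∃ t : ℝ, t = 2 * z.re := ⟨_, rfl⟩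
  obtain ⟨N, hN⟩ : ∃ N : ℝ, N = ‖z‖ ^ 2 := ⟨_, rfl⟩
  have hsq : ((1 - C t * X + C N * X ^ 2 : ℝ[X]) ^ 2) = C 1 + C (-2 * t) * X +
      C (t ^ 2 + 2 * N) * X ^ 2 + C (-2 * t * N) * X ^ 3 + C (N ^ 2) * X ^ 4 := by
    simp only [C_mul, C_pow, C_neg, C_add, map_ofNat, C_1]
    ring
  have hc : ∀ i, ((1 - C t * X + C N * X ^ 2 : ℝ[X]) ^ 2).coeff i =
      (if i = 0 then 1 else 0) + (if i = 1 then -2 * t else 0) +
        (if i = 2 then t ^ 2 + 2 * N else 0) + (if i = 3 then -2 * t * N else 0) +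
        (if i = 4 then N ^ 2 else 0) := by
    intro i
    rw [hsq, coeff_add, coeff_add, coeff_add, coeff_add, coeff_C, coeff_C_mul_X,
      coeff_C_mul_X_pow, coeff_C_mul_X_pow, coeff_C_mul_X_pow]
  have hdeg : ((1 - C t * X + C N * X ^ 2 : ℝ[X]) ^ 2).natDegree ≤ 4 := by
    refine natDegree_le_iff_coeff_eq_zero.2 fun i hi => ?_
    rw [hc, if_neg (by omega), if_neg (by omega), if_neg (by omega), if_neg (by omega),
      if_neg (by omega)]
    simp
  have htb : |t| ≤ 2 * ‖z‖ := by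
    rw [ht, abs_mul, abs_two]
    have := Complex.abs_re_le_norm z
    linarith
  refine mem_round (q := 1 - C t * X + C N * X ^ 2) hH ?_ (fun n => ?_) ?_ ?_
  · rw [hc]
    norm_num
  · refine (sum_coeff_le hdeg n).trans ?_
    rw [Finset.sum_range_succ, Finset.sum_range_succ, Finset.sum_range_succ,
      Finset.sum_range_succ, Finset.sum_range_zero, hc, hc, hc, hc]
    have hN0 : 0 ≤ N := by rw [hN]; positivity
    have e2 : |t ^ 2 + 2 * N| = |t| ^ 2 + 2 * N := by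
      rw [abs_of_nonneg (by positivity), sq_abs]
    norm_num [mul_assoc]
    rw [e2, abs_of_nonneg hN0]
    have hz0' := norm_nonneg z
    have ht0 := abs_nonneg t
    have f2 : |t| ^ 2 ≤ (2 * ‖z‖) ^ 2 := by gcongr
    have f3 : 2 * (|t| * N) ≤ 2 * ((2 * ‖z‖) * N) := by gcongr
    rw [hN] at f3 ⊢
    nlinarith
  · rw [norm_inv]
    exact inv_lt_one_of_one_lt₀ hz1
  · have h1 : aeval z⁻¹ (1 - C t * X + C N * X ^ 2 : ℝ[X]) =
        1 - (t : ℂ) * z⁻¹ + (N : ℂ) * z⁻¹ ^ 2 := by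
      rw [map_add, map_sub, map_one, map_mul, map_mul, map_pow, aeval_C, aeval_C, aeval_X]
      rfl
    rw [h1]
    have h2 : (t : ℂ) = z + starRingEnd ℂ z := by
      rw [Complex.add_conj, ht]
    have h3 : (N : ℂ) = z * starRingEnd ℂ z := by
      rw [Complex.mul_conj, hN, Complex.normSq_eq_norm_sq]
    rw [h2, h3]
    field_simp
    ring

/-- Larger monic annuli. -/
theorem monic_annuli {H : ℕ} (hH : 1 ≤ H) :
    (∀ z : ℂ, 1 ≤ ‖z‖ → (1 + ‖z‖) ^ 4 ≤ (H : ℝ) + 1 → z ∈ Close fun n => SepaMon n H) ∧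
    ∀ x : ℝ, 1 ≤ |x| → (1 + |x|) ^ 2 ≤ (H : ℝ) + 1 → (x : ℂ) ∈ Close fun n => SepaMon n H := by
  constructor
  · intro z h1 h2
    rw [(localised_monic hH).1]
    rcases lt_or_eq_of_le h1 with h | h
    · exact Or.inr (Or.inr (round_cpx h h2))
    · exact Or.inr (Or.inl h.symm)
  · intro x h1 h2
    rw [(localised_monic hH).1]
    rcases lt_or_eq_of_le h1 with h | h
    · exact Or.inr (Or.inr (round_real h h2))
    · refine Or.inr (Or.inl ?_)
      rw [Complex.norm_real, Real.norm_eq_abs]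
      exact h.symm

end Pool.Agent.Helper41.DZ
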