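import Pool.Agent.Helper41.DZ.Comp

/-!
# MP_418077_nt, close pairs of roots inside the unit disc: Taylor coefficients of the power series
-/

set_option autoImplicit false

namespace Pool.Agent.Helper41.DZ

open Polynomial Filter Topology
open Pool.Agent.Helper41.RS

/-- the Taylor coefficients at `α` of the power series with the coefficients `c` -/
noncomputable def tc (c : ℕ → ℤ) (m : ℕ) (α : ℂ) : ℂ :=
  ∑' i, (c i : ℂ) * ((i.choose m : ℂ) * α ^ (i - m))

lemma tc_zero (c : ℕ → ℤ) (α : ℂ) : tc c 0 α = ser c α := by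
  unfold tc ser
  simp

lemma tc_one (c : ℕ → ℤ) (α : ℂ) : tc c 1 α = der c α := by
  unfold tc der
  simp

lemma taylor_tc (Q : ℤ[X]) (m : ℕ) (α : ℂ) :
    (taylor α (Q.map (Int.castRingHom ℂ))).coeff m = tc Q.coeff m α := by
  unfold tc
  rw [taylor_coeff, hasseDeriv_apply, Polynomial.sum_def, eval_finsetSum]
  symm
  rw [tsum_eq_sum (s := (Q.map (Int.castRingHom ℂ)).support)]
  · refine Finset.sum_congr rfl fun i _ => ?_
    rw [eval_monomial, coeff_map, eq_intCast]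
    ring
  · intro i hi
    rw [notMem_support_iff, coeff_map, eq_intCast] at hi
    rw [hi, zero_mul]

lemma summable_choose {r : ℝ} (h0 : 0 ≤ r) (h1 : r < 1) (m : ℕ) :
    Summable fun i : ℕ => (i.choose m : ℝ) * r ^ (i - m) := by
  rw [← summable_nat_add_iff m]
  have h2 := summable_choose_mul_geometric_of_norm_lt_one (R := ℝ) m (r := r)
    (by rwa [Real.norm_of_nonneg h0])
  refine h2.congr fun i => ?_
  rw [Nat.add_sub_cancel]

lemma summable_tc {c : ℕ → ℤ} {H : ℕ} (hc : ∀ i, (c i).natAbs ≤ H) {α : ℂ} (hα : ‖α‖ < 1)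
    (m : ℕ) : Summable fun i : ℕ => (c i : ℂ) * ((i.choose m : ℂ) * α ^ (i - m)) := by
  refine Summable.of_norm_bounded
    ((summable_choose (norm_nonneg α) hα m).mul_left (H : ℝ)) fun i => ?_
  rw [norm_mul, norm_mul, norm_pow, Complex.norm_natCast]
  have := norm_coeff_le (hc i)
  gcongr

lemma tc_approx {c : ℕ → ℤ} {H : ℕ} (hc : ∀ i, (c i).natAbs ≤ H) {α : ℂ} {μ : ℝ}
    (hμ : ‖α‖ < μ) (hμ1 : μ < 1) (m : ℕ) :
    ∃ K : ℝ, 0 ≤ K ∧ ∀ N : ℕ, ∀ d : ℕ → ℤ, (∀ i, (d i).natAbs ≤ H) → (∀ i ≤ N, d i = c i) →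
      ‖tc d m α - tc c m α‖ ≤ K * μ ^ N := by
  have hμ0 : 0 < μ := (norm_nonneg _).trans_lt hμ
  have hα1 : ‖α‖ < 1 := hμ.trans hμ1
  have hr0 : 0 ≤ ‖α‖ / μ := by positivity
  have hr1 : ‖α‖ / μ < 1 := by rwa [div_lt_one hμ0]
  obtain ⟨g, hg⟩ : ∃ g : ℕ → ℝ, ∀ i, g i =
      (2 * H * (μ⁻¹) ^ m) * ((i.choose m : ℝ) * (‖α‖ / μ) ^ (i - m)) := ⟨_, fun i => rfl⟩
  have hgs : Summable g := by
    refine ((summable_choose hr0 hr1 m).mul_left (2 * H * (μ⁻¹) ^ m)).congr fun i => ?_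
    rw [hg]
  have hg0 : ∀ i, 0 ≤ g i := by
    intro i
    rw [hg]
    positivity
  refine ⟨∑' i, g i, tsum_nonneg hg0, fun N d hd hdc => ?_⟩
  unfold tc
  rw [← (summable_tc hd hα1 m).tsum_sub (summable_tc hc hα1 m), ← tsum_mul_right]
  refine tsum_of_norm_bounded (hgs.mul_right _).hasSum fun i => ?_
  by_cases hiN : i ≤ N
  · rw [hdc i hiN, sub_self, norm_zero]
    have := hg0 i
    positivity
  · rw [not_le] at hiN
    by_cases him : i < m
    · rw [Nat.choose_eq_zero_of_lt him]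
      have := hg0 i
      simp only [Nat.cast_zero, zero_mul, mul_zero, sub_self, norm_zero]
      positivity
    · rw [not_lt] at him
      rw [← sub_mul, norm_mul, norm_mul, norm_pow, Complex.norm_natCast, hg]
      have h1 : ‖(d i : ℂ) - (c i : ℂ)‖ ≤ 2 * H := by
        refine (norm_sub_le _ _).trans ?_
        have e1 := norm_coeff_le (hc i)
        have e2 := norm_coeff_le (hd i)
        linarith
      have h2 : ‖α‖ ^ (i - m) ≤ (μ⁻¹) ^ m * (‖α‖ / μ) ^ (i - m) * μ ^ N := by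
        have e1 : (μ⁻¹) ^ m * (‖α‖ / μ) ^ (i - m) * μ ^ i = ‖α‖ ^ (i - m) := by
          obtain ⟨j, rfl⟩ : ∃ j, i = m + j := ⟨i - m, by omega⟩
          rw [Nat.add_sub_cancel_left, div_pow, pow_add, inv_pow]
          have e2 : (μ ^ m : ℝ) ≠ 0 := (pow_pos hμ0 m).ne'
          have e3 : (μ ^ j : ℝ) ≠ 0 := (pow_pos hμ0 j).ne'
          field_simp
        rw [← e1]
        have e4 : μ ^ i ≤ μ ^ N := pow_le_pow_of_le_one hμ0.le hμ1.le hiN.le
        gcongr
      calc ‖(d i : ℂ) - (c i : ℂ)‖ * ((i.choose m : ℝ) * ‖α‖ ^ (i - m)) ≤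
          (2 * H) * ((i.choose m : ℝ) * ((μ⁻¹) ^ m * (‖α‖ / μ) ^ (i - m) * μ ^ N)) := by
            gcongr
        _ = 2 * H * μ⁻¹ ^ m * ((i.choose m : ℝ) * (‖α‖ / μ) ^ (i - m)) * μ ^ N := by ring

/-- the binomial formula as an infinite sum -/
lemma hasSum_binom {𝕜 : Type*} [RCLike 𝕜] (x y : 𝕜) (i : ℕ) :
    HasSum (fun m : ℕ => ((i.choose m : 𝕜) * y ^ (i - m)) * x ^ m) ((x + y) ^ i) := by
  have h : (x + y) ^ i = ∑ m ∈ Finset.range (i + 1), ((i.choose m : 𝕜) * y ^ (i - m)) * x ^ m := by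
    rw [add_pow]
    refine Finset.sum_congr rfl fun m _ => ?_
    ring
  rw [h]
  refine hasSum_sum_of_ne_finset_zero fun m hm => ?_
  rw [Finset.mem_range, not_lt] at hm
  rw [Nat.choose_eq_zero_of_lt (by omega), Nat.cast_zero, zero_mul, zero_mul]

/-- The Taylor expansion. -/
lemma taylor_series {c : ℕ → ℤ} {H : ℕ} (hc : ∀ i, (c i).natAbs ≤ H) {α h : ℂ}
    (hs : ‖h‖ + ‖α‖ < 1) : ser c (h + α) = ∑' m, tc c m α * h ^ m := by
  obtain ⟨f, hf⟩ : ∃ f : ℕ → ℕ → ℂ, ∀ i m, f i m =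
      (c i : ℂ) * (((i.choose m : ℂ) * α ^ (i - m)) * h ^ m) := ⟨_, fun i m => rfl⟩
  obtain ⟨F, hF⟩ : ∃ F : ℕ × ℕ → ℝ, ∀ x, F x =
      (H : ℝ) * (((x.1.choose x.2 : ℝ) * ‖α‖ ^ (x.1 - x.2)) * ‖h‖ ^ x.2) := ⟨_, fun x => rfl⟩
  have hF0 : 0 ≤ F := by
    intro x
    rw [hF, Pi.zero_apply]
    positivity
  have hFs : Summable F := by
    rw [summable_prod_of_nonneg hF0]
    have h1 : ∀ i, HasSum (fun m => F (i, m)) ((H : ℝ) * (‖h‖ + ‖α‖) ^ i) := by
      intro i
      have h2 := (hasSum_binom ‖h‖ ‖α‖ i).mul_left (H : ℝ)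
      simp only [hF]
      exact h2
    refine ⟨fun i => (h1 i).summable, ?_⟩
    have h3 : Summable fun i : ℕ => (H : ℝ) * (‖h‖ + ‖α‖) ^ i :=
      (summable_geometric_of_lt_one (by positivity) hs).mul_left _
    refine h3.congr fun i => ?_
    rw [(h1 i).tsum_eq]
  have hfs : Summable (Function.uncurry f) := by
    refine Summable.of_norm_bounded hFs fun x => ?_
    change ‖f x.1 x.2‖ ≤ F x
    rw [hf, hF, norm_mul, norm_mul, norm_mul, norm_pow, norm_pow, Complex.norm_natCast]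
    have := norm_coeff_le (hc x.1)
    gcongr
  have h1 := hfs.tsum_comm
  have h2 : ∀ i, ∑' m, f i m = (c i : ℂ) * (h + α) ^ i := by
    intro i
    simp only [hf]
    exact ((hasSum_binom h α i).mul_left (c i : ℂ)).tsum_eq
  have h3 : ∀ m, ∑' i, f i m = tc c m α * h ^ m := by
    intro m
    simp only [hf]
    unfold tc
    rw [← tsum_mul_right]
    refine tsum_congr fun i => ?_
    ring
  unfold ser
  simp only [h2, h3] at h1
  exact h1.symm

/-- A power series with non-zero constant term has a non-vanishing Taylor coefficient. -/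
theorem exists_tc_ne {c : ℕ → ℤ} {H : ℕ} (hc : ∀ i, (c i).natAbs ≤ H) (hc0 : c 0 ≠ 0) {α : ℂ}
    (hα : ‖α‖ < 1) : ∃ m, tc c m α ≠ 0 := by
  by_contra hcon
  push Not at hcon
  obtain ⟨R, hR1, hR2⟩ := exists_between hα
  have hR0 : 0 ≤ R := (norm_nonneg _).trans hR1.le
  have hd : DifferentiableOn ℂ (fun z => ∑' i, (c i : ℂ) * z ^ i) (Metric.ball 0 R) := by
    refine Complex.differentiableOn_tsum_of_summable_norm
      (u := fun i => (H : ℝ) * R ^ i)
      ((summable_geometric_of_lt_one hR0 hR2).mul_left _) (fun i => ?_) Metric.isOpen_ball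
      fun i w hw => ?_
    · exact (differentiable_const _).mul (differentiable_id.pow i) |>.differentiableOn
    · rw [mem_ball_zero_iff] at hw
      rw [norm_mul, norm_pow]
      have := norm_coeff_le (hc i)
      gcongr
  have ha := hd.analyticOnNhd Metric.isOpen_ball
  have hev : (fun z => ∑' i, (c i : ℂ) * z ^ i) =ᶠ[𝓝 α] 0 := by
    have hball : Metric.ball α (1 - ‖α‖) ∈ 𝓝 α := Metric.ball_mem_nhds _ (by linarith)
    filter_upwards [hball] with z hz
    rw [mem_ball_iff_norm] at hz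
    have h1 := taylor_series (h := z - α) hc (α := α) (by linarith)
    rw [sub_add_cancel] at h1
    simp only [hcon, zero_mul, tsum_zero] at h1
    exact h1
  have h0 := ha.eqOn_zero_of_preconnected_of_eventuallyEq_zero
    (convex_ball (0 : ℂ) R).isPreconnected (by rwa [mem_ball_zero_iff]) hev
    (x := 0) (by rw [mem_ball_zero_iff, norm_zero]; exact (norm_nonneg _).trans_lt hR1)
  simp only [Pi.zero_apply] at h0
  rw [tsum_eq_single 0] at h0
  · rw [pow_zero, mul_one, Int.cast_eq_zero] at h0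
    exact hc0 h0
  · intro i hi
    rw [zero_pow hi, mul_zero]

end Pool.Agent.Helper41.DZ
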