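import Pool.Agent.Helper41.DZ.Pig

/-!
# MP_418077_nt, close pairs of roots inside the unit disc: small double zeros; the final form
-/

set_option autoImplicit false

namespace Pool.Agent.Helper41.DZ

open Polynomial Filter Topology
open Pool.Agent.Helper41.RS

lemma one_mem_of {H : ℕ} (hH : 1 ≤ H) {z : ℂ} (hz : z ∈ Dbl {0}ᶜ 1) : z ∈ Dbl {1} H := by
  obtain ⟨hz1, c, hc, hc0, hs, hd⟩ := hz
  have h0 : c 0 ≠ 0 := hc0
  have h1 := hc 0
  rcases (by omega : c 0 = 1 ∨ c 0 = -1) with h | h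
  · exact ⟨hz1, c, fun i => (hc i).trans hH, h, hs, hd⟩
  · refine ⟨hz1, fun i => -c i, fun i => ?_, ?_, ?_, ?_⟩
    · rw [Int.natAbs_neg]
      exact (hc i).trans hH
    · change -c 0 ∈ ({1} : Set ℤ)
      rw [h, Set.mem_singleton_iff, neg_neg]
    · unfold ser at hs ⊢
      have e1 : ∀ i : ℕ, ((-c i : ℤ) : ℂ) * z ^ i = -((c i : ℂ) * z ^ i) := by
        intro i
        push_cast
        ring
      simp only [e1, tsum_neg, hs, neg_zero]
    · unfold der at hd ⊢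
      have e1 : ∀ i : ℕ, ((-c i : ℤ) : ℂ) * (i * z ^ (i - 1)) =
          -((c i : ℂ) * (i * z ^ (i - 1))) := by
        intro i
        push_cast
        ring
      simp only [e1, tsum_neg, hd, neg_zero]

lemma gen_bound {H : ℕ} {z : ℂ} (hz : z ∈ Dbl {0}ᶜ H) (k : ℕ) {S : ℝ}
    (hS : HasSum (fun i : ℕ => |(k : ℝ) - (i + 1)| * ‖z‖ ^ (i + 1)) S) : (k : ℝ) ≤ H * S := by
  obtain ⟨hz1, c, hc, hc0, hs, hd⟩ := hz
  have s0 := summable_tc hc hz1 0
  have s1 := summable_tc hc hz1 1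
  have t0 : ∑' i, (c i : ℂ) * ((i.choose 0 : ℂ) * z ^ (i - 0)) = 0 := by
    have h := tc_zero c z
    unfold tc at h
    rw [h, hs]
  have t1 : ∑' i, (c i : ℂ) * ((i.choose 1 : ℂ) * z ^ (i - 1)) = 0 := by
    have h := tc_one c z
    unfold tc at h
    rw [h, hd]
  have hsum := (s0.mul_left (k : ℂ)).sub (s1.mul_left z)
  have hts := (s0.mul_left (k : ℂ)).tsum_sub (s1.mul_left z)
  rw [tsum_mul_left, tsum_mul_left, t0, t1, mul_zero, mul_zero, sub_zero] at hts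
  have hf : ∀ i : ℕ, (k : ℂ) * ((c i : ℂ) * ((i.choose 0 : ℂ) * z ^ (i - 0))) -
      z * ((c i : ℂ) * ((i.choose 1 : ℂ) * z ^ (i - 1))) = (c i : ℂ) * (((k : ℂ) - i) * z ^ i) := by
    intro i
    rcases i with _ | i
    · simp
      ring
    · rw [Nat.choose_zero_right, Nat.choose_one_right, Nat.add_sub_cancel, Nat.sub_zero, pow_succ]
      push_cast
      ring
  simp only [hf] at hsum hts
  rw [hsum.tsum_eq_zero_add] at hts
  have h1 : ‖∑' i : ℕ, (c (i + 1) : ℂ) * (((k : ℂ) - ((i + 1 : ℕ) : ℂ)) * z ^ (i + 1))‖ ≤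
      H * S := by
    refine tsum_of_norm_bounded (hS.mul_left (H : ℝ)) fun i => ?_
    have e1 : ‖(k : ℂ) - ((i + 1 : ℕ) : ℂ)‖ = |(k : ℝ) - (i + 1)| := by
      have e2 : (k : ℂ) - ((i + 1 : ℕ) : ℂ) = (((k : ℝ) - (i + 1) : ℝ) : ℂ) := by
        push_cast
        ring
      rw [e2, Complex.norm_real, Real.norm_eq_abs]
    rw [norm_mul, norm_mul, norm_pow, e1]
    have := norm_coeff_le (hc (i + 1))
    gcongr
  have h2 : ∑' i : ℕ, (c (i + 1) : ℂ) * (((k : ℂ) - ((i + 1 : ℕ) : ℂ)) * z ^ (i + 1)) =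
      -((c 0 : ℂ) * k) := by
    rw [← add_eq_zero_iff_eq_neg, add_comm, ← hts]
    simp
  rw [h2, norm_neg, norm_mul, Complex.norm_natCast, Complex.norm_intCast] at h1
  have h3 : (1 : ℝ) ≤ |(c 0 : ℝ)| := by
    have h4 : (1 : ℤ) ≤ |c 0| := Int.one_le_abs hc0
    exact_mod_cast h4
  have hk : (0 : ℝ) ≤ k := Nat.cast_nonneg k
  nlinarith

lemma hasSum_one {r : ℝ} (h0 : 0 ≤ r) (h1 : r < 1) :
    HasSum (fun i : ℕ => |((1 : ℕ) : ℝ) - (i + 1)| * r ^ (i + 1)) (r ^ 2 / (1 - r) ^ 2) := by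
  have h2 := (hasSum_coe_mul_geometric_of_norm_lt_one (𝕜 := ℝ) (r := r)
    (by rwa [Real.norm_of_nonneg h0])).mul_right r
  have h3 : r / (1 - r) ^ 2 * r = r ^ 2 / (1 - r) ^ 2 := by ring
  rw [h3] at h2
  refine HasSum.congr_fun h2 fun i => ?_
  have e1 : ((1 : ℕ) : ℝ) - (i + 1) = -(i : ℝ) := by
    push_cast
    ring
  rw [e1, abs_neg, abs_of_nonneg (Nat.cast_nonneg i), pow_succ]
  ring

lemma hasSum_four {r : ℝ} (h0 : 0 ≤ r) (h1 : r < 1) :
    HasSum (fun i : ℕ => |((4 : ℕ) : ℝ) - (i + 1)| * r ^ (i + 1))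
      (r ^ 5 / (1 - r) ^ 2 + (3 * r + 2 * r ^ 2 + r ^ 3)) := by
  have h2 := (hasSum_coe_mul_geometric_of_norm_lt_one (𝕜 := ℝ) (r := r)
    (by rwa [Real.norm_of_nonneg h0])).mul_right (r ^ 4)
  have h3 : r / (1 - r) ^ 2 * r ^ 4 = r ^ 5 / (1 - r) ^ 2 := by ring
  rw [h3] at h2
  have h4 : ∑ i ∈ Finset.range 3, |((4 : ℕ) : ℝ) - (i + 1)| * r ^ (i + 1) =
      3 * r + 2 * r ^ 2 + r ^ 3 := by
    rw [Finset.sum_range_succ, Finset.sum_range_succ, Finset.sum_range_succ,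
      Finset.sum_range_zero]
    norm_num
  rw [← h4]
  refine (hasSum_nat_add_iff 3).1 ?_
  refine HasSum.congr_fun h2 fun i => ?_
  have e1 : ((4 : ℕ) : ℝ) - (((i + 3 : ℕ) : ℝ) + 1) = -(i : ℝ) := by
    push_cast
    ring
  rw [e1, abs_neg, abs_of_nonneg (Nat.cast_nonneg i)]
  ring

/-- The double zeros are not small. -/
theorem lower {H : ℕ} {z : ℂ} (hz : z ∈ Dbl {0}ᶜ H) : 1 / (1 + √H) ≤ ‖z‖ := by
  have hz1 := hz.1
  have h0 := norm_nonneg z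
  have h1 := gen_bound hz 1 (hasSum_one h0 hz1)
  have h2 : 0 < 1 - ‖z‖ := by linarith
  rw [Nat.cast_one, ← mul_div_assoc, le_div_iff₀ (by positivity), one_mul] at h1
  have h3 : (√(H : ℝ)) ^ 2 = H := Real.sq_sqrt (Nat.cast_nonneg H)
  have h4 : (1 - ‖z‖) ^ 2 ≤ (√(H : ℝ) * ‖z‖) ^ 2 := by
    rw [mul_pow, h3]
    exact h1
  have h5 : 1 - ‖z‖ ≤ √(H : ℝ) * ‖z‖ := le_of_sq_le_sq h4 (by positivity)
  rw [div_le_iff₀ (by positivity)]
  linarith

/-- The double zeros are not small: height one. -/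
theorem lower_one {z : ℂ} (hz : z ∈ Dbl {0}ᶜ 1) : 0.649 < ‖z‖ := by
  have hz1 := hz.1
  have h0 := norm_nonneg z
  have h1 := gen_bound hz 4 (hasSum_four h0 hz1)
  obtain ⟨r, hr⟩ : ∃ r : ℝ, r = ‖z‖ := ⟨_, rfl⟩
  rw [← hr] at h0 h1 hz1 ⊢
  by_contra h
  rw [not_lt] at h
  have e2 : r ^ 2 ≤ 0.649 ^ 2 := by gcongr
  have e3 : r ^ 3 ≤ 0.649 ^ 3 := by gcongr
  have e5 : r ^ 5 / (1 - r) ^ 2 ≤ 0.649 ^ 5 / 0.351 ^ 2 := by
    have e6 : (0.351 : ℝ) ≤ 1 - r := by linarith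
    gcongr
  norm_num at h1 e2 e3 e5
  linarith

/-- Exponential closeness excludes that the roots are apart. -/
lemma not_apart {T : ℕ → Set ℤ[X]} {z : ℂ} (h : ∀ ε : ℝ, 0 < ε → ∃ w, ‖w - z‖ < ε ∧ ExpAt T w) :
    ¬ Apart T z := by
  rintro ⟨δ, hδ, hA⟩
  obtain ⟨w, hw, l, hl0, hl1, hev⟩ := h (δ / 4) (by positivity)
  have hpow : Tendsto (fun n : ℕ => l ^ n) atTop (𝓝 0) :=
    tendsto_pow_atTop_nhds_zero_of_lt_one hl0.le hl1
  have hs : ∀ᶠ n : ℕ in atTop, l ^ n < δ / 4 :=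
    hpow.eventually (gt_mem_nhds (by positivity))
  obtain ⟨n, ⟨P, hP, a, b, ha, hb, hab, haw, hbw⟩, hn1, hn2⟩ :=
    (hev.and ((eventually_ge_atTop 1).and hs)).exists
  have e1 : ‖a - z‖ < δ := by
    have e2 : a - z = (a - w) + (w - z) := by ring
    rw [e2]
    have e3 := norm_add_le (a - w) (w - z)
    linarith
  have e4 : ‖a - b‖ < δ := by
    have e2 : a - b = (a - w) - (b - w) := by ring
    rw [e2]
    have e3 := norm_sub_le (a - w) (b - w)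
    linarith
  exact absurd (hA n hn1 P hP a b ha hb hab e1) (not_le.2 e4)

lemma not_apart_of_exp {T : ℕ → Set ℤ[X]} {z : ℂ} (h : ExpAt T z) : ¬ Apart T z :=
  not_apart fun ε hε => ⟨z, by rw [sub_self, norm_zero]; exact hε, h⟩

/-- The points `z` with pairs of roots of polynomials in the `T n` arbitrarily close to `z` and
to each other. -/
def Close (T : ℕ → Set ℤ[X]) : Set ℂ :=
  {z | ∀ δ : ℝ, 0 < δ → ∃ n : ℕ, 1 ≤ n ∧ ∃ P ∈ T n, ∃ a b : ℂ, aeval a P = 0 ∧ aeval b P = 0 ∧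
    a ≠ b ∧ ‖a - z‖ < δ ∧ ‖a - b‖ < δ}

lemma close_iff {T : ℕ → Set ℤ[X]} {z : ℂ} : z ∈ Close T ↔ ¬ Apart T z := by
  unfold Close Apart
  rw [Set.mem_ofPred_eq]
  push Not
  rfl

/-- On the circle. -/
lemma circle {H : ℕ} (hH : 1 ≤ H) {z : ℂ} (hz : ‖z‖ = 1) {ε : ℝ} (hε : 0 < ε) :
    ∃ w, ‖w - z‖ < ε ∧ ExpAt (fun n => SepaMon n H) w := by
  obtain ⟨t, ht0, ht⟩ : ∃ t : ℝ, 0 < t ∧ t < min (1 / 10) ε :=
    exists_between (lt_min (by norm_num) hε)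
  have ht1 := lt_of_lt_of_le ht (min_le_left _ _)
  have ht2 := lt_of_lt_of_le ht (min_le_right _ _)
  have hn : ‖((1 - t : ℝ) : ℂ) * z‖ = 1 - t := by
    rw [norm_mul, hz, mul_one, Complex.norm_real, Real.norm_of_nonneg (by linarith)]
  refine ⟨((1 - t : ℝ) : ℂ) * z, ?_, exp_in (C := {1}) (by simp) hH
    (one_mem_of hH (mem_annulus le_rfl ?_ ?_))⟩
  · have e1 : ((1 - t : ℝ) : ℂ) * z - z = -((t : ℂ) * z) := by
      push_cast
      ring
    rw [e1, norm_neg, norm_mul, hz, mul_one, Complex.norm_real, Real.norm_of_nonneg ht0.le]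
    exact ht2
  · rw [hn]
    linarith
  · rw [hn]
    have e1 : (0.9 : ℝ) ^ 4 ≤ (1 - t) ^ 4 := by
      gcongr
      linarith
    norm_num at e1 ⊢
    linarith

lemma exp_mono {T T' : ℕ → Set ℤ[X]} (h : ∀ n, T n ⊆ T' n) {z : ℂ} (hz : ExpAt T z) :
    ExpAt T' z := by
  obtain ⟨l, hl0, hl1, hev⟩ := hz
  refine ⟨l, hl0, hl1, hev.mono fun n hn => ?_⟩
  obtain ⟨P, hP, hn'⟩ := hn
  exact ⟨P, h n hP, hn'⟩

lemma apart_mono {T T' : ℕ → Set ℤ[X]} (h : ∀ n, T n ⊆ T' n) {z : ℂ} (hz : Apart T' z) :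
    Apart T z := by
  obtain ⟨δ, hδ, hA⟩ := hz
  exact ⟨δ, hδ, fun n hn P hP => hA n hn P (h n hP)⟩

/-- The description of the set `Close T` and the exponential closeness. -/
def Localised (T : ℕ → Set ℤ[X]) (C : Set ℤ) (H : ℕ) : Prop :=
  (∀ z : ℂ, z ∈ Close T ↔ z ∈ Dbl {0}ᶜ H ∨ ‖z‖ = 1 ∨ z⁻¹ ∈ Dbl C H) ∧
    ∀ z ∈ Close T, ‖z‖ ≠ 1 → ExpAt T z

theorem localised_aux {H : ℕ} (hH : 1 ≤ H) {T : ℕ → Set ℤ[X]} {C : Set ℤ} (hC : (0 : ℤ) ∉ C)
    (hT1 : ∀ n, SepaMon n H ⊆ T n) (hT2 : ∀ n, T n ⊆ Sepa n H)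
    (hTC : ∀ n, 1 ≤ n → ∀ P ∈ T n, P.leadingCoeff ∈ C)
    (hCT : ∀ n, ∀ P ∈ Sepa n H, P.leadingCoeff ∈ C → P ∈ T n) : Localised T C H := by
  have hin : ∀ z : ℂ, z ∈ Dbl {0}ᶜ H → ExpAt T z := fun z hz =>
    exp_mono hT1 (exp_in (by simp) hH hz)
  have hout : ∀ z : ℂ, z⁻¹ ∈ Dbl C H → ExpAt T z := fun z hz => exp_out hC hH hCT hz
  have hA : ∀ z : ℂ, z ∈ Close T ↔ z ∈ Dbl {0}ᶜ H ∨ ‖z‖ = 1 ∨ z⁻¹ ∈ Dbl C H := by
    intro z
    rw [close_iff]
    constructor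
    · intro h
      by_contra hcon
      push Not at hcon
      obtain ⟨h1, h2, h3⟩ := hcon
      rcases lt_or_gt_of_ne h2 with h4 | h4
      · exact h (apart_mono hT2 (apart_in h4 h1))
      · exact h (apart_out hT2 hTC h4 h3)
    · rintro (h | h | h)
      · exact not_apart_of_exp (hin z h)
      · refine not_apart fun ε hε => ?_
        obtain ⟨w, hw1, hw2⟩ := circle hH h hε
        exact ⟨w, hw1, exp_mono hT1 hw2⟩
      · exact not_apart_of_exp (hout z h)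
  refine ⟨hA, fun z hz hz1 => ?_⟩
  rcases (hA z).1 hz with h | h | h
  · exact hin z h
  · exact absurd h hz1
  · exact hout z h

theorem localised_all {H : ℕ} (hH : 1 ≤ H) : Localised (fun n => Sepa n H) {0}ᶜ H :=
  localised_aux hH (by simp) (fun n P hP => hP.1) (fun n => subset_rfl)
    (fun n hn P hP => by
      rw [Set.mem_compl_iff, Set.mem_singleton_iff, leadingCoeff_eq_zero]
      exact ne_zero_of_mem hn hP)
    fun n P hP _ => hP

theorem localised_monic {H : ℕ} (hH : 1 ≤ H) : Localised (fun n => SepaMon n H) {1} H :=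
  localised_aux hH (by simp) (fun n => subset_rfl) (fun n P hP => hP.1)
    (fun n hn P hP => hP.2) fun n P hP h => ⟨hP, h⟩

/-- the position of `Close T` -/
theorem position {H : ℕ} (hH : 1 ≤ H) {z : ℂ} (hz : z ∈ Close fun n => Sepa n H) :
    1 / (1 + √H) ≤ ‖z‖ ∧ ‖z‖ ≤ 1 + √H := by
  have h0 : 0 ≤ √(H : ℝ) := Real.sqrt_nonneg _
  have h1 : 1 / (1 + √(H : ℝ)) ≤ 1 := by
    rw [div_le_one (by positivity)]
    linarith
  rcases ((localised_all hH).1 z).1 hz with h | h | h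
  · exact ⟨lower h, h.1.le.trans (by linarith)⟩
  · rw [h]
    exact ⟨h1, by linarith⟩
  · have h2 := lower h
    have h3 := h.1
    rw [norm_inv] at h2 h3
    have hz0 : 0 < ‖z‖ := by
      by_contra h4
      have h5 : ‖z‖ = 0 := le_antisymm (not_lt.1 h4) (norm_nonneg _)
      rw [h5, inv_zero] at h2
      have : 0 < 1 / (1 + √(H : ℝ)) := by positivity
      linarith
    have h6 : 1 < ‖z‖ := by
      by_contra h7
      have := (one_le_inv₀ hz0).2 (not_lt.1 h7)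
      linarith
    refine ⟨h1.trans h6.le, ?_⟩
    rw [one_div] at h2
    exact (inv_le_inv₀ (by positivity) hz0).1 h2

theorem position_one {z : ℂ} (hz : z ∈ Close fun n => Sepa n 1) :
    0.649 < ‖z‖ ∧ ‖z‖ * 0.649 < 1 := by
  rcases ((localised_all le_rfl).1 z).1 hz with h | h | h
  · exact ⟨lower_one h, by have := h.1; linarith⟩
  · rw [h]
    norm_num
  · have h2 := lower_one h
    have h3 := h.1
    rw [norm_inv] at h2 h3
    have hz0 : 0 < ‖z‖ := by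
      by_contra h4
      have h5 : ‖z‖ = 0 := le_antisymm (not_lt.1 h4) (norm_nonneg _)
      rw [h5, inv_zero] at h2
      norm_num at h2
    have h6 : 1 < ‖z‖ := by
      by_contra h7
      have := (one_le_inv₀ hz0).2 (not_lt.1 h7)
      linarith
    refine ⟨by linarith, ?_⟩
    have h7 : ‖z‖ * 0.649 < ‖z‖ * ‖z‖⁻¹ := by gcongr
    rwa [mul_inv_cancel₀ hz0.ne'] at h7

/-- the annuli inside `Close T` -/
theorem annuli {H : ℕ} (hH : 1 ≤ H) (z : ℂ) :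
    (‖z‖ ≤ 1 → 1 < ((H : ℝ) + 1) * ‖z‖ ^ 4 → z ∈ Close fun n => SepaMon n H) ∧
    (1 ≤ ‖z‖ → ‖z‖ ^ 4 < (H : ℝ) + 1 → z ∈ Close fun n => Sepa n H) ∧
    (1 ≤ ‖z‖ → ‖z‖ ^ 4 < 2 → z ∈ Close fun n => SepaMon n H) := by
  refine ⟨fun h1 h2 => ?_, fun h1 h2 => ?_, fun h1 h2 => ?_⟩
  · rw [(localised_monic hH).1]
    rcases lt_or_eq_of_le h1 with h | h
    · exact Or.inl (mem_annulus hH h h2)
    · exact Or.inr (Or.inl h)
  · rw [(localised_all hH).1]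
    rcases lt_or_eq_of_le h1 with h | h
    · refine Or.inr (Or.inr (mem_annulus hH ?_ ?_))
      · rw [norm_inv]
        exact inv_lt_one_of_one_lt₀ h
      · rw [norm_inv, inv_pow, ← div_eq_mul_inv, one_lt_div (by positivity)]
        exact h2
    · exact Or.inr (Or.inl h.symm)
  · rw [(localised_monic hH).1]
    rcases lt_or_eq_of_le h1 with h | h
    · refine Or.inr (Or.inr (one_mem_of hH (mem_annulus le_rfl ?_ ?_)))
      · rw [norm_inv]
        exact inv_lt_one_of_one_lt₀ h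
      · rw [norm_inv, inv_pow, ← div_eq_mul_inv, one_lt_div (by positivity)]
        norm_num
        linarith
    · exact Or.inr (Or.inl h.symm)

/-- the real points inside `Close T` -/
theorem reals {H : ℕ} (hH : 1 ≤ H) (x : ℝ) :
    (x ^ 2 ≤ 1 → 1 < ((H : ℝ) + 1) * x ^ 2 → (x : ℂ) ∈ Close fun n => SepaMon n H) ∧
    (1 ≤ x ^ 2 → x ^ 2 < (H : ℝ) + 1 → (x : ℂ) ∈ Close fun n => Sepa n H) ∧
    (1 ≤ x ^ 2 → x ^ 2 < 2 → (x : ℂ) ∈ Close fun n => SepaMon n H) := by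
  have hn : ‖(x : ℂ)‖ = |x| := by rw [Complex.norm_real, Real.norm_eq_abs]
  have hone : x ^ 2 = 1 → ‖(x : ℂ)‖ = 1 := by
    intro h
    rw [← sq_abs] at h
    rw [hn]
    exact (pow_eq_one_iff_of_nonneg (abs_nonneg x) two_ne_zero).1 h
  have hinv : ∀ K : ℝ, 0 < K → 1 < x ^ 2 → x ^ 2 < K → |x⁻¹| < 1 ∧ 1 < K * x⁻¹ ^ 2 := by
    intro K hK h1 h2
    constructor
    · rw [abs_inv]
      refine inv_lt_one_of_one_lt₀ ?_
      rwa [one_lt_sq_iff_one_lt_abs] at h1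
    · rw [inv_pow, ← div_eq_mul_inv, one_lt_div (by linarith)]
      exact h2
  refine ⟨fun h1 h2 => ?_, fun h1 h2 => ?_, fun h1 h2 => ?_⟩
  · rw [(localised_monic hH).1]
    rcases lt_or_eq_of_le h1 with h | h
    · exact Or.inl (mem_real hH ((sq_lt_one_iff_abs_lt_one x).1 h) h2)
    · exact Or.inr (Or.inl (hone h))
  · rw [(localised_all hH).1]
    rcases lt_or_eq_of_le h1 with h | h
    · obtain ⟨e1, e2⟩ := hinv _ (by positivity) h h2
      have h3 := mem_real hH e1 e2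
      rw [Complex.ofReal_inv] at h3
      exact Or.inr (Or.inr h3)
    · exact Or.inr (Or.inl (hone h.symm))
  · rw [(localised_monic hH).1]
    rcases lt_or_eq_of_le h1 with h | h
    · obtain ⟨e1, e2⟩ := hinv 2 (by norm_num) h h2
      have h3 := mem_real (H := 1) le_rfl e1 (by norm_num at e2 ⊢; linarith)
      rw [Complex.ofReal_inv] at h3
      exact Or.inr (Or.inr (one_mem_of hH h3))
    · exact Or.inr (Or.inl (hone h.symm))

end Pool.Agent.Helper41.DZ
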